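import Pool.Agent.Lib.MP_af430d_al.Defs

/-!
# MP_af430d_al job ActB: the conjugation action on subgroups of a normal subgroup

`act N g M = M.map (MulAut.conjNormal g).toMonoidHom`. All statements are formal.
`MulAut.conjNormal : G →* MulAut N`, `MulAut.conjNormal_apply : ↑(conjNormal g h) = g * h * g⁻¹`.
For `act_index` use `Subgroup.index_map_of_bijective` or `Subgroup.index_map_equiv`; `act_sup` = `Subgroup.map_sup`,
`act_inf` = `Subgroup.map_inf _ _ _ injective`; `act_normal` = `Subgroup.Normal.map` with surjectivity.
-/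

namespace AF430

open Subgroup

universe v

variable {G : Type v} [Group G] (N : Subgroup G) [N.Normal]

theorem ActB_inv_apply (g : G) (n : N) :
    MulAut.conjNormal g (MulAut.conjNormal g⁻¹ n) = n := by
  apply Subtype.ext
  simp [MulAut.conjNormal_apply, mul_assoc]

theorem ActB_apply_inv (g : G) (n : N) :
    MulAut.conjNormal g⁻¹ (MulAut.conjNormal g n) = n := by
  apply Subtype.ext
  simp [MulAut.conjNormal_apply, mul_assoc]

theorem mem_act (g : G) (M : Subgroup N) (n : N) :
    n ∈ act N g M ↔ MulAut.conjNormal g⁻¹ n ∈ M := by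
  unfold act
  rw [Subgroup.mem_map]
  constructor
  · rintro ⟨x, hx, rfl⟩
    show MulAut.conjNormal g⁻¹ (MulAut.conjNormal g x) ∈ M
    rw [ActB_apply_inv]
    exact hx
  · intro h
    exact ⟨MulAut.conjNormal g⁻¹ n, h, ActB_inv_apply N g n⟩

theorem act_one (M : Subgroup N) : act N 1 M = M := by
  unfold act
  rw [map_one]
  exact Subgroup.map_id M

theorem act_mul (g h : G) (M : Subgroup N) : act N (g * h) M = act N g (act N h M) := by
  unfold act
  rw [map_mul, Subgroup.map_map]
  rfl

theorem act_inv_act (g : G) (M : Subgroup N) : act N g⁻¹ (act N g M) = M := by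
  rw [← act_mul, inv_mul_cancel, act_one]

theorem act_act_inv (g : G) (M : Subgroup N) : act N g (act N g⁻¹ M) = M := by
  rw [← act_mul, mul_inv_cancel, act_one]

theorem act_top (g : G) : act N g ⊤ = ⊤ := by
  rw [eq_top_iff]
  intro n _
  rw [mem_act]
  exact mem_top _

theorem act_mono (g : G) {M M' : Subgroup N} (h : M ≤ M') : act N g M ≤ act N g M' :=
  Subgroup.map_mono h

theorem act_sup (g : G) (M M' : Subgroup N) : act N g (M ⊔ M') = act N g M ⊔ act N g M' :=
  Subgroup.map_sup _ _ _

theorem act_inf (g : G) (M M' : Subgroup N) : act N g (M ⊓ M') = act N g M ⊓ act N g M' := by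
  ext n
  rw [mem_inf, mem_act, mem_act, mem_act, mem_inf]

theorem act_index (g : G) (M : Subgroup N) : (act N g M).index = M.index := by
  unfold act
  exact Subgroup.index_map_of_bijective (MulEquiv.bijective (MulAut.conjNormal g)) M

theorem act_normal (g : G) (M : Subgroup N) (hM : M.Normal) : (act N g M).Normal :=
  hM.map _ (MulEquiv.surjective (MulAut.conjNormal g))

theorem act_inj (g : G) {M M' : Subgroup N} (h : act N g M = act N g M') : M = M' := by
  rw [← act_inv_act N g M, h, act_inv_act]

theorem mem_St (M : Subgroup N) (g : G) : g ∈ St N M ↔ act N g M = M := Iff.rfl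

end AF430
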