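import Pool.Agent.Lib.MP_af430d_al.Defs

/-!
# MP_af430d_al job CubeA: commutators of the terms of the lower central series

* `lcs_comm`: `⁅Γ_i, Γ_j⁆ ≤ Γ_{i+j}` by induction on `j` (all `i`): `⁅L_i, L_{j+1}⁆ = ⁅L_i, ⁅L_j, ⊤⁆⁆`, three subgroups lemma modulo the normal subgroup `L_{i+j+2}`: `⁅⁅L_i, L_j⁆, ⊤⁆ ≤ ⁅L_{i+j+1}, ⊤⁆ = L_{i+j+2}` and
  `⁅⁅L_i, ⊤⁆, L_j⁆ = ⁅L_{i+1}, L_j⁆ ≤ L_{i+j+2}` by induction. (Mathlib has `Subgroup.commutator_commutator_eq_bot_of_rotate`; apply it in the quotient group, with `Subgroup.map_commutator`.)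
-/

namespace AF430

open Subgroup

universe v

/-- three subgroups lemma modulo a normal subgroup -/
theorem CubeA_three {Γ : Type v} [Group Γ] (H₁ H₂ H₃ N : Subgroup Γ) [N.Normal]
    (h1 : ⁅⁅H₂, H₃⁆, H₁⁆ ≤ N) (h2 : ⁅⁅H₃, H₁⁆, H₂⁆ ≤ N) : ⁅⁅H₁, H₂⁆, H₃⁆ ≤ N := by
  have key : ∀ A B C : Subgroup Γ, ⁅⁅A, B⁆, C⁆ ≤ N ↔
      ⁅⁅A.map (QuotientGroup.mk' N), B.map (QuotientGroup.mk' N)⁆, C.map (QuotientGroup.mk' N)⁆ = ⊥ := by
    intro A B C
    rw [← Subgroup.map_commutator, ← Subgroup.map_commutator, Subgroup.map_eq_bot_iff,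
      QuotientGroup.ker_mk']
  rw [key] at h1 h2 ⊢
  exact Subgroup.commutator_commutator_eq_bot_of_rotate h1 h2

theorem lcs_comm {Γ : Type v} [Group Γ] (i j : ℕ) :
    ⁅(⊤ : Subgroup Γ).lowerCentralSeries i, (⊤ : Subgroup Γ).lowerCentralSeries j⁆ ≤
      (⊤ : Subgroup Γ).lowerCentralSeries (i + j + 1) := by
  induction j generalizing i with
  | zero =>
    rw [Subgroup.lowerCentralSeries_zero, ← Subgroup.lowerCentralSeries_succ, Nat.add_zero]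
  | succ j ih =>
    rw [Subgroup.lowerCentralSeries_succ (⊤ : Subgroup Γ) j, Subgroup.commutator_comm]
    have e : i + (j + 1) + 1 = (i + 1) + j + 1 := by ring
    apply CubeA_three
    · rw [Subgroup.commutator_comm ⊤, ← Subgroup.lowerCentralSeries_succ, e]
      exact ih (i + 1)
    · have h : ⁅(⊤ : Subgroup Γ).lowerCentralSeries (i + j + 1), (⊤ : Subgroup Γ)⁆
          = (⊤ : Subgroup Γ).lowerCentralSeries (i + (j + 1) + 1) := rfl
      rw [← h]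
      exact Subgroup.commutator_mono (ih i) le_rfl

end AF430
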