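import Pool.Agent.Lib.MP_af430d_al.Defs
import Pool.Agent.Lib.MP_af430d_al.CubeA

/-!
# MP_af430d_al job CubeB: the cube lemma

Write `Γ_0 = Γ_1 = Γ`, `Γ_{i+1} = lowerCentralSeries i` (of `⊤`).
* `lcs_comm` (job CubeA, imported): `⁅Γ_i, Γ_j⁆ ≤ Γ_{i+j}`.
* A filtration of a group `A`: `K : ℕ → Subgroup A` with `K (i+1) ≤ K i` and `⁅K i, K j⁆ ≤ K (i + j)`. `Filt.sq`: on `A × A` the subsets `K' i = {(x, y) | x ∈ K i ∧ x⁻¹ * y ∈ K (i+1)}` are subgroups and form a filtration:
  product: `(x x')⁻¹ y y' = x'⁻¹ (x⁻¹ y) x' * (x'⁻¹ y')` and `K (i+1)` is normalised by `K 0 ≥ K i` (because `⁅K (i+1), K 0⁆ ≤ K (i+1)`); commutator of `(x, x α)`, `x ∈ K i`, `α ∈ K (i+1)` and `(y, y β)`, `y ∈ K j`, `β ∈ K (j+1)`: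
  modulo `K (i+j+1)` (normal in `K 0`) `α` commutes with `y` and `β`, `x` commutes with `β`, so `⁅x α, y β⁆ ≡ ⁅x, y⁆`.
* `Filt.comap f` for `f : B →* A`. `Qf n : Filt (List Bool → Γ)`: `Qf 0` = comap of the filtration `Γ_i` along evaluation at `[]`; `Qf (n+1)` = comap of `(Qf n).sq` along `φ ↦ (fun l => φ (false :: l), fun l => φ (true :: l))`.
* constants with value in `Γ_i` are in `(Qf n).K i` (induction on `n`).
* `pr b : List Bool → Γ`: `pr b [] = 1`, `pr b (false :: l) = pr b.tail l`, `pr b (true :: l) = b.head * pr b.tail l`. Then `pr b ∈ (Qf n).K 0`: the second component is `(pr b')⁻¹ * b.head * pr b'`, conjugate of the constant `b.head ∈ K 1`.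
* if `c ∈ (Qf n).K i` and `c l = 1` for all `l` of length `n`, `l ≠ List.replicate n false`, then `c (List.replicate n false) ∈ Γ_{n+i}`: induction on `n`, applying the induction hypothesis to
  `l ↦ (c (false :: l))⁻¹ * c (true :: l)` in `(Qf n).K (i+1)`.
* if `l` has length `n` and `l ≠ List.replicate n false` then `pr b l ∈ Hindman.FP b`; `pr b (List.replicate n false) = 1` (`Hindman.FP` has constructors `head`, `tail`, `cons`).
* `cube`: for `w ∈ WM E`, `l ↦ w (pr b l)` is in `(Qf n).K 0` (`Subgroup.closure_induction`), hence so is `c l = w (pr b l) * a⁻¹`, which is trivial for `l ≠ replicate n false`; so `w 1 * a⁻¹ ∈ Γ_n = ⊥` for `n` large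
  (`Subgroup.nilpotent_iff_lowerCentralSeries` and antitone).
-/

namespace AF430

open Subgroup

universe v

namespace CubeB

/-- A filtration of a group. -/
structure Filt (A : Type v) [Group A] where
  /-- the terms -/
  K : ℕ → Subgroup A
  anti : ∀ i, K (i + 1) ≤ K i
  com : ∀ i j x y, x ∈ K i → y ∈ K j → x * y * x⁻¹ * y⁻¹ ∈ K (i + j)

namespace Filt

variable {A : Type v} [Group A] (F : Filt A)

theorem le_add (i j : ℕ) : F.K (i + j) ≤ F.K i := by
  induction j with
  | zero => exact le_refl _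
  | succ j ih => exact (F.anti (i + j)).trans ih

theorem le_of_le {i j : ℕ} (h : i ≤ j) : F.K j ≤ F.K i := by
  obtain ⟨k, rfl⟩ := Nat.exists_eq_add_of_le h
  exact F.le_add i k

theorem conj {i j : ℕ} {x y : A} (hx : x ∈ F.K i) (hy : y ∈ F.K j) : x * y * x⁻¹ ∈ F.K j := by
  have h1 : x * y * x⁻¹ * y⁻¹ ∈ F.K j := F.le_of_le (by omega : j ≤ i + j) (F.com i j x y hx hy)
  have h2 := mul_mem h1 hy
  simpa using h2

theorem conj' {i j : ℕ} {x y : A} (hx : x ∈ F.K i) (hy : y ∈ F.K j) : x⁻¹ * y * x ∈ F.K j := by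
  have := F.conj (inv_mem hx) hy
  simpa using this

/-- The filtration of the pairs. -/
def sq : Filt (A × A) where
  K i :=
    { carrier := {z | z.1 ∈ F.K i ∧ z.1⁻¹ * z.2 ∈ F.K (i + 1)}
      one_mem' := by
        constructor
        · exact one_mem _
        · simp [one_mem]
      mul_mem' := by
        rintro ⟨x, y⟩ ⟨x', y'⟩ ⟨h1, h2⟩ ⟨h3, h4⟩
        simp only at h1 h2 h3 h4
        refine ⟨mul_mem h1 h3, ?_⟩
        have h5 := mul_mem (F.conj' h3 h2) h4
        have h6 : (x * x')⁻¹ * (y * y') = x'⁻¹ * (x⁻¹ * y) * x' * (x'⁻¹ * y') := by group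
        show (x * x')⁻¹ * (y * y') ∈ F.K (i + 1)
        rw [h6]
        exact h5
      inv_mem' := by
        rintro ⟨x, y⟩ ⟨h1, h2⟩
        simp only at h1 h2
        refine ⟨inv_mem h1, ?_⟩
        have h5 := F.conj h1 (inv_mem h2)
        have h6 : (x⁻¹)⁻¹ * y⁻¹ = x * (x⁻¹ * y)⁻¹ * x⁻¹ := by group
        show (x⁻¹)⁻¹ * y⁻¹ ∈ F.K (i + 1)
        rw [h6]
        exact h5 }
  anti i := by
    rintro ⟨x, y⟩ ⟨h1, h2⟩
    exact ⟨F.anti i h1, F.anti (i + 1) h2⟩
  com i j := by
    rintro ⟨x, x'⟩ ⟨y, y'⟩ ⟨h1, h2⟩ ⟨h3, h4⟩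
    simp only at h1 h2 h3 h4
    have hy' : y' ∈ F.K j := by
      have := mul_mem h3 (F.anti j h4)
      simpa using this
    refine ⟨F.com i j x y h1 h3, ?_⟩
    have hP : x * ((x⁻¹ * x') * y' * (x⁻¹ * x')⁻¹ * y'⁻¹) * x⁻¹ ∈ F.K (i + j + 1) := by
      have := F.com (i + 1) j _ _ h2 hy'
      have h := F.conj h1 this
      rwa [show i + 1 + j = i + j + 1 by omega] at h
    have hQ : y * (x * (y⁻¹ * y') * x⁻¹ * (y⁻¹ * y')⁻¹) * y⁻¹ ∈ F.K (i + j + 1) := by
      have := F.com i (j + 1) _ _ h1 h4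
      exact F.conj h3 this
    have hR := mul_mem (F.conj' (F.com i j x y h1 h3) hP) hQ
    have h6 : (x * y * x⁻¹ * y⁻¹)⁻¹ * (x' * y' * x'⁻¹ * y'⁻¹) =
        (x * y * x⁻¹ * y⁻¹)⁻¹ * (x * ((x⁻¹ * x') * y' * (x⁻¹ * x')⁻¹ * y'⁻¹) * x⁻¹) *
          (x * y * x⁻¹ * y⁻¹) * (y * (x * (y⁻¹ * y') * x⁻¹ * (y⁻¹ * y')⁻¹) * y⁻¹) := by group
    show (x * y * x⁻¹ * y⁻¹)⁻¹ * (x' * y' * x'⁻¹ * y'⁻¹) ∈ F.K (i + j + 1)
    rw [h6]
    exact hR

/-- Preimage of a filtration. -/
def comap {B : Type v} [Group B] (f : B →* A) : Filt B where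
  K i := (F.K i).comap f
  anti i := Subgroup.comap_mono (F.anti i)
  com i j x y hx hy := by
    have := F.com i j (f x) (f y) hx hy
    show f (x * y * x⁻¹ * y⁻¹) ∈ F.K (i + j)
    simpa using this

end Filt

variable {Γ : Type v} [Group Γ]

/-- `Γ_i` -/
def Ga (Γ : Type v) [Group Γ] : Filt Γ where
  K i := (⊤ : Subgroup Γ).lowerCentralSeries (i - 1)
  anti i := Subgroup.lowerCentralSeries_antitone (S := (⊤ : Subgroup Γ)) (by omega)
  com i j x y hx hy := by
    rcases i with _ | i
    · have hn : ((⊤ : Subgroup Γ).lowerCentralSeries (j - 1)).Normal := inferInstance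
      have h1 := hn.conj_mem y hy x
      have h2 := mul_mem h1 (inv_mem hy)
      simpa using h2
    · rcases j with _ | j
      · have hn : ((⊤ : Subgroup Γ).lowerCentralSeries i).Normal := inferInstance
        have hx' : x ∈ (⊤ : Subgroup Γ).lowerCentralSeries i := by simpa using hx
        have h1 := hn.conj_mem x⁻¹ (inv_mem hx') y
        have h2 := mul_mem hx' h1
        have h3 : x * y * x⁻¹ * y⁻¹ = x * (y * x⁻¹ * y⁻¹) := by group
        rw [h3]
        simpa using h2
      · have hx' : x ∈ (⊤ : Subgroup Γ).lowerCentralSeries i := by simpa using hx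
        have hy' : y ∈ (⊤ : Subgroup Γ).lowerCentralSeries j := by simpa using hy
        have h := lcs_comm i j (Subgroup.commutator_mem_commutator hx' hy')
        have h2 : i + 1 + (j + 1) - 1 = i + j + 1 := by omega
        rw [h2]
        exact h

/-- Evaluation at a point, as a homomorphism. -/
def evh (Γ : Type v) [Group Γ] (l : List Bool) : (List Bool → Γ) →* Γ where
  toFun φ := φ l
  map_one' := rfl
  map_mul' _ _ := rfl

/-- Restriction to the two halves. -/
def spl (Γ : Type v) [Group Γ] : (List Bool → Γ) →* (List Bool → Γ) × (List Bool → Γ) where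
  toFun φ := (fun l => φ (false :: l), fun l => φ (true :: l))
  map_one' := rfl
  map_mul' _ _ := rfl

/-- The polynomial filtration. -/
def Qf (Γ : Type v) [Group Γ] : ℕ → Filt (List Bool → Γ)
  | 0 => (Ga Γ).comap (evh Γ [])
  | n + 1 => ((Qf Γ n).sq).comap (spl Γ)

theorem mem_zero {i : ℕ} {φ : List Bool → Γ} : φ ∈ (Qf Γ 0).K i ↔ φ [] ∈ (Ga Γ).K i := Iff.rfl

theorem mem_succ {n i : ℕ} {φ : List Bool → Γ} : φ ∈ (Qf Γ (n + 1)).K i ↔
    (fun l => φ (false :: l)) ∈ (Qf Γ n).K i ∧
      (fun l => φ (false :: l))⁻¹ * (fun l => φ (true :: l)) ∈ (Qf Γ n).K (i + 1) := Iff.rfl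

theorem const_mem (n i : ℕ) {g : Γ} (hg : g ∈ (Ga Γ).K i) : (fun _ => g) ∈ (Qf Γ n).K i := by
  induction n with
  | zero => exact hg
  | succ n ih =>
    rw [mem_succ]
    refine ⟨ih, ?_⟩
    rw [inv_mul_cancel]
    exact one_mem _

/-- Products of a stream. -/
def pr : List Bool → Stream' Γ → Γ
  | [] => fun _ => 1
  | false :: l => fun b => pr l b.tail
  | true :: l => fun b => b.head * pr l b.tail

theorem pr_mem (n : ℕ) (b : Stream' Γ) : (fun l => pr l b) ∈ (Qf Γ n).K 0 := by
  induction n generalizing b with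
  | zero =>
    rw [mem_zero]
    show _ ∈ (⊤ : Subgroup Γ).lowerCentralSeries 0
    rw [Subgroup.lowerCentralSeries_zero]
    exact Subgroup.mem_top _
  | succ n ih =>
    rw [mem_succ]
    refine ⟨ih b.tail, ?_⟩
    have h1 : (fun _ => b.head) ∈ (Qf Γ n).K 1 := by
      apply const_mem
      show _ ∈ (⊤ : Subgroup Γ).lowerCentralSeries 0
      rw [Subgroup.lowerCentralSeries_zero]
      exact Subgroup.mem_top _
    have h2 := (Qf Γ n).conj' (ih b.tail) h1
    have h3 : (fun l => pr (false :: l) b)⁻¹ * (fun l => pr (true :: l) b) =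
        (fun l => pr l b.tail)⁻¹ * (fun _ => b.head) * (fun l => pr l b.tail) := by
      funext l
      simp [pr, mul_assoc]
    rw [h3]
    exact h2

theorem vanish (n i : ℕ) (c : List Bool → Γ) (hc : c ∈ (Qf Γ n).K i)
    (h : ∀ l : List Bool, l.length = n → l ≠ List.replicate n false → c l = 1) :
    c (List.replicate n false) ∈ (Ga Γ).K (n + i) := by
  induction n generalizing i c with
  | zero =>
    rw [mem_zero] at hc
    simpa using hc
  | succ n ih =>
    rw [mem_succ] at hc
    have h1 := ih (i + 1) _ hc.2 (by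
      intro l hl hne
      have ha : c (false :: l) = 1 := h _ (by simp [hl]) (by
        intro he
        apply hne
        rw [List.replicate_succ] at he
        exact (List.cons.inj he).2)
      have hb : c (true :: l) = 1 := h _ (by simp [hl]) (by
        intro he
        rw [List.replicate_succ] at he
        exact absurd (List.cons.inj he).1 (by decide))
      show (c (false :: l))⁻¹ * c (true :: l) = 1
      rw [ha, hb]
      simp)
    have h2 : c (true :: List.replicate n false) = 1 := h _ (by simp) (by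
      intro he
      rw [List.replicate_succ] at he
      exact absurd (List.cons.inj he).1 (by decide))
    have h3 : (c (false :: List.replicate n false))⁻¹ * c (true :: List.replicate n false) ∈
        (Ga Γ).K (n + (i + 1)) := h1
    rw [h2, mul_one] at h3
    have h4 := inv_mem h3
    rw [inv_inv] at h4
    rw [List.replicate_succ, show n + 1 + i = n + (i + 1) by omega]
    exact h4

theorem pr_replicate (n : ℕ) (b : Stream' Γ) : pr (List.replicate n false) b = 1 := by
  induction n generalizing b with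
  | zero => rfl
  | succ n ih =>
    rw [List.replicate_succ]
    exact ih b.tail

theorem pr_FP (l : List Bool) (b : Stream' Γ) (h : l ≠ List.replicate l.length false) :
    pr l b ∈ Hindman.FP b := by
  induction l generalizing b with
  | nil => exact absurd rfl h
  | cons x l ih =>
    cases x with
    | false =>
      apply Hindman.FP.tail
      apply ih
      intro he
      apply h
      rw [List.length_cons, List.replicate_succ, ← he]
    | true =>
      by_cases hl : l = List.replicate l.length false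
      · have : pr (true :: l) b = b.head := by
          show b.head * pr l b.tail = b.head
          rw [hl, pr_replicate, mul_one]
        rw [this]
        exact Hindman.FP.head b
      · exact Hindman.FP.cons b _ (ih b.tail hl)

theorem wm_mem (E : Set Γ) (w : Γ → Γ) (hw : w ∈ WM E) (n : ℕ) (b : Stream' Γ) :
    (fun l => w (pr l b)) ∈ (Qf Γ n).K 0 := by
  unfold WM at hw
  induction hw using Subgroup.closure_induction with
  | mem x hx =>
    rcases hx with ⟨e, -, rfl⟩ | hx
    · apply const_mem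
      show _ ∈ (⊤ : Subgroup Γ).lowerCentralSeries 0
      rw [Subgroup.lowerCentralSeries_zero]
      exact Subgroup.mem_top _
    · rw [Set.mem_singleton_iff] at hx
      subst hx
      exact pr_mem n b
  | one => exact one_mem _
  | mul x y _ _ hx hy => exact mul_mem hx hy
  | inv x _ hx => exact inv_mem hx

end CubeB

open CubeB in
theorem cube {Γ : Type v} [Group Γ] [Group.IsNilpotent Γ] (E : Set Γ) (w : Γ → Γ) (hw : w ∈ WM E)
    (a : Γ) (b : Stream' Γ) (h : ∀ m ∈ Hindman.FP b, w m = a) : w 1 = a := by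
  obtain ⟨N, hN⟩ := (Subgroup.nilpotent_iff_lowerCentralSeries (G := Γ)).1 inferInstance
  have h1 : (fun l => w (pr l b)) * (fun _ => a⁻¹) ∈ (Qf Γ (N + 1)).K 0 := by
    apply mul_mem (wm_mem E w hw (N + 1) b)
    apply const_mem
    show _ ∈ (⊤ : Subgroup Γ).lowerCentralSeries 0
    rw [Subgroup.lowerCentralSeries_zero]
    exact Subgroup.mem_top _
  have h2 := vanish (N + 1) 0 _ h1 (by
    intro l hl hne
    show w (pr l b) * a⁻¹ = 1
    rw [h (pr l b) (pr_FP l b (by rw [hl]; exact hne))]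
    simp)
  have h3 : w (pr (List.replicate (N + 1) false) b) * a⁻¹ ∈
      (⊤ : Subgroup Γ).lowerCentralSeries (N + 1 + 0 - 1) := h2
  rw [pr_replicate, show N + 1 + 0 - 1 = N by omega, hN, Subgroup.mem_bot] at h3
  exact mul_inv_eq_one.1 h3

end AF430
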