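import Mathlib

/-!
# Perfect Fitting p-groups with hypercentral proper subgroups: definitions

THEOREM (Results/MP_af430d_al/NoGroupLaw.lean). Let `G` be a perfect locally finite `p`-group all of whose proper subgroups are hypercentral, such that every finite subset of `G`
lies in a nilpotent normal subgroup. Then no nontrivial quotient of `G` satisfies a nontrivial group law: for every proper normal subgroup `K` and every `u ≠ 1` in a free group on a set `ι` there is
`g : ι → G` with `u(g) ∉ K`.
-/

namespace AF430

open Subgroup

universe v w

/-- `H` is hypercentral: each of its nontrivial quotients `H/N` has nontrivial centre (as in the frozen statement). -/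
def Hyp {G : Type v} [Group G] (H : Subgroup G) : Prop :=
  ∀ N : Subgroup G, N ≤ H → N ≠ H → (∀ n ∈ N, ∀ x ∈ H, x * n * x⁻¹ ∈ N) →
    ∃ h ∈ H, h ∉ N ∧ ∀ x ∈ H, h * x * h⁻¹ * x⁻¹ ∈ N

/-- The hypotheses: perfect locally finite `p`-group, all proper subgroups hypercentral, every finite subset in a nilpotent normal subgroup. -/
structure Hy (p : ℕ) (G : Type v) [Group G] : Prop where
  pgp : IsPGroup p G
  lf : ∀ s : Finset G, (Subgroup.closure (s : Set G) : Set G).Finite
  perf : commutator G = ⊤
  hyp : ∀ H : Subgroup G, H ≠ ⊤ → Hyp H
  fit : ∀ s : Finset G, ∃ N : Subgroup G, N.Normal ∧ Group.IsNilpotent N ∧ (s : Set G) ⊆ N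

/-- The word maps of one variable with constants from `E`: the subgroup of `Γ → Γ` generated by the constant functions with values in `E` and the identity map. -/
def WM {Γ : Type v} [Group Γ] (E : Set Γ) : Subgroup (Γ → Γ) :=
  Subgroup.closure ({w : Γ → Γ | ∃ e ∈ E, w = fun _ => e} ∪ {id})

section act

variable {G : Type v} [Group G] (N : Subgroup G) [N.Normal]

/-- `G` acts on the subgroups of the normal subgroup `N` by conjugation: `act N g M = g M g⁻¹`. -/
def act (g : G) (M : Subgroup N) : Subgroup N := M.map (MulAut.conjNormal g).toMonoidHom

/-- The stabiliser in `G` of a subgroup of `N`. -/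
def St (M : Subgroup N) : Subgroup G where
  carrier := {g | act N g M = M}
  one_mem' := by
    show act N 1 M = M
    unfold act
    rw [map_one]
    exact Subgroup.map_id M
  mul_mem' := by
    intro a b ha hb
    have ha' : act N a M = M := ha
    have hb' : act N b M = M := hb
    show act N (a * b) M = M
    have h : act N (a * b) M = act N a (act N b M) := by
      unfold act
      rw [map_mul, Subgroup.map_map]
      rfl
    rw [h, hb', ha']
  inv_mem' := by
    intro a ha
    have ha' : act N a M = M := ha
    show act N a⁻¹ M = M
    have h : act N a⁻¹ (act N a M) = M := by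
      unfold act
      rw [Subgroup.map_map, map_inv]
      have : ((MulAut.conjNormal a : MulAut N)⁻¹).toMonoidHom.comp (MulAut.conjNormal a : MulAut N).toMonoidHom = MonoidHom.id N := by
        ext n
        simp
      rw [this, Subgroup.map_id]
    rw [ha'] at h
    exact h

variable (H : Subgroup G)

/-- `C_N`: the largest normal subgroup of `N` contained in `H`. -/
def CN : Subgroup N := (H.subgroupOf N).normalCore

/-- Intersection of the conjugates of `C_N` at the positions in a list. -/
def AA : List G → Subgroup N
  | [] => ⊤
  | h :: hs => act N h (CN N H) ⊓ AA hs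

/-- Independence of a list of positions: `N → ∏ N / h C_N h⁻¹` is onto. -/
def Ind : List G → Prop
  | [] => True
  | h :: hs => act N h (CN N H) ⊔ AA N H hs = ⊤ ∧ Ind hs

end act

/-- Good normal subgroups: `N = [N, G]`, and `H ∩ N` has finite index in `N`. -/
structure Good {G : Type v} [Group G] (H N : Subgroup G) : Prop where
  nor : N.Normal
  com : N ≤ ⁅N, (⊤ : Subgroup G)⁆
  fin : H.relIndex N ≠ 0

section word

variable {G : Type v} [Group G] {ι : Type w} (g : ι → G)

/-- Value of a letter. -/
def ev : ι × Bool → G
  | (i, true) => g i
  | (i, false) => (g i)⁻¹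

/-- Value of a word (the product of its letters). -/
def pos : List (ι × Bool) → G
  | [] => 1
  | a :: L => ev g a * pos L

/-- The values of all suffixes. -/
def PL : List (ι × Bool) → List G
  | [] => [1]
  | a :: L => pos g (a :: L) :: PL L

open Classical in
/-- Targets of the arrows labelled by `i`. -/
noncomputable def TL (i : ι) : List (ι × Bool) → List G
  | [] => []
  | a :: L => if a.1 = i then (if a.2 = true then pos g (a :: L) else pos g L) :: TL i L else TL i L

open Classical in
/-- Sources of the arrows labelled by `i`. -/
noncomputable def SL (i : ι) : List (ι × Bool) → List G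
  | [] => []
  | a :: L => if a.1 = i then (if a.2 = true then pos g L else pos g (a :: L)) :: SL i L else SL i L

/-- Reduced words: no letter is followed by its inverse. -/
def Red : List (ι × Bool) → Prop
  | [] => True
  | a :: L => (∀ b ∈ L.head?, b ≠ (a.1, !a.2)) ∧ Red L

end word

end AF430
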