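import Pool.Agent.Lib.MP_1f4983_al.Factor

/-!
# Supplements in perfect locally finite p-groups with hypercentral proper subgroups
-/

set_option autoImplicit false

namespace Pool.Agent.Lib.MP_af430d_al.DoubleCosetB

open scoped commutatorElement
open Pool.Agent.Lib.MP_1f4983_al.Factor

/-- A hypercentral group satisfies the normalizer condition. -/
theorem hyp_ncond {X : Type*} [Group X] (hX : Hypercentral X) :
    ∀ H : Subgroup X, H < ⊤ → H < Subgroup.normalizer (H : Set X) := by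
  intro H hH
  have hc : H.normalCore ≠ ⊤ := fun h => hH.ne (top_le_iff.1 (h ▸ H.normalCore_le))
  obtain ⟨z, hz, hzc⟩ := hX H.normalCore (Subgroup.normalCore_normal H) hc
  have hzH : z ∉ H := by
    intro h
    apply hz
    intro g
    have h1 : g * z * g⁻¹ = ⁅z, g⁆⁻¹ * z := by
      rw [commutatorElement_def]
      group
    rw [h1]
    exact H.mul_mem (H.inv_mem (H.normalCore_le (hzc g))) h
  refine lt_of_le_of_ne Subgroup.le_normalizer ?_
  intro h
  apply hzH
  rw [h, Subgroup.mem_normalizer_iff]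
  have key : ∀ h : X, z * h * z⁻¹ = ⁅z, h⁆ * h := by
    intro h
    rw [commutatorElement_def]
    group
  intro x
  rw [key x]
  constructor
  · exact fun hx => H.mul_mem (H.normalCore_le (hzc x)) hx
  · intro hx
    have := H.mul_mem (H.inv_mem (H.normalCore_le (hzc x))) hx
    rwa [inv_mul_cancel_left] at this

/-- In a group with the normalizer condition an element of the commutator subgroup can be omitted from generating
sets. -/
theorem omit_comm {P : Type*} [Group P]
    (hP : ∀ H : Subgroup P, H < ⊤ → H < Subgroup.normalizer (H : Set P)) (M : Subgroup P) (c : P)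
    (hc : c ∈ commutator P) (h : M ⊔ Subgroup.zpowers c = ⊤) : c ∈ M := by
  by_contra hcM
  obtain ⟨K, hMK, hK⟩ := zorn_le_nonempty₀ {K : Subgroup P | M ≤ K ∧ c ∉ K} (by
    intro d hd hch L hL
    refine ⟨sSup d, ⟨le_trans (hd hL).1 (le_sSup hL), ?_⟩, fun z hz => le_sSup hz⟩
    intro hx
    obtain ⟨s, hs, hxs⟩ := le_chain_sSup hch ⟨L, hL⟩ hx
    exact (hd hs).2 hxs) M ⟨le_rfl, hcM⟩
  have hcK : c ∉ K := hK.prop.2
  have hKc : K ⊔ Subgroup.zpowers c = ⊤ := by
    rw [eq_top_iff, ← h]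
    exact sup_le_sup_right hMK _
  have hlt : K < ⊤ := lt_top_iff_ne_top.2 (fun h => hcK (h ▸ Subgroup.mem_top c))
  have hlt2 := hP K hlt
  have hcN : c ∈ Subgroup.normalizer (K : Set P) := by
    by_contra hcon
    exact absurd hlt2 (not_lt_of_ge (hK.le_of_ge (y := Subgroup.normalizer (K : Set P))
      ⟨le_trans hMK hlt2.le, hcon⟩ hlt2.le))
  have htop : Subgroup.normalizer (K : Set P) = ⊤ := by
    rw [eq_top_iff, ← hKc]
    exact sup_le hlt2.le (by rw [Subgroup.zpowers_le]; exact hcN)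
  have hn : K.Normal := Subgroup.normalizer_eq_top_iff.1 htop
  -- the quotient is generated by the image of `c`
  have hcomm : commutator P ≤ K := by
    rw [commutator_def, Subgroup.commutator_le]
    intro x _ y _
    have hx : x ∈ K ⊔ Subgroup.zpowers c := by rw [hKc]; exact Subgroup.mem_top x
    have hy : y ∈ K ⊔ Subgroup.zpowers c := by rw [hKc]; exact Subgroup.mem_top y
    obtain ⟨k, hk, z, hz, rfl⟩ := Subgroup.mem_sup_of_normal_left.1 hx
    obtain ⟨l, hl, w, hw, rfl⟩ := Subgroup.mem_sup_of_normal_left.1 hy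
    obtain ⟨i, rfl⟩ := Subgroup.mem_zpowers_iff.1 hz
    obtain ⟨j, rfl⟩ := Subgroup.mem_zpowers_iff.1 hw
    have h1 : ⁅k * c ^ i, l * c ^ j⁆ =
        k * (c ^ i * l * (c ^ i)⁻¹) * (c ^ (i + j) * (c ^ i)⁻¹ * k⁻¹ * (c ^ i) * (c ^ (i + j))⁻¹) * l⁻¹ := by
      rw [commutatorElement_def, zpow_add]
      group
    rw [h1]
    refine K.mul_mem (K.mul_mem (K.mul_mem hk (hn.conj_mem l hl _)) ?_) (K.inv_mem hl)
    have h2 : c ^ (i + j) * (c ^ i)⁻¹ * k⁻¹ * (c ^ i) * (c ^ (i + j))⁻¹ =
        (c ^ (i + j) * (c ^ i)⁻¹) * k⁻¹ * (c ^ (i + j) * (c ^ i)⁻¹)⁻¹ := by group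
    rw [h2]
    exact hn.conj_mem _ (K.inv_mem hk) _
  exact hcK (hcomm hc)

/-- A maximal subgroup of a locally finite `p`-group contains the commutator subgroup. -/
theorem commutator_le_of_max {p : ℕ} (hp : p.Prime) {G : Type*} [Group G] (hpG : IsPGroup p G)
    (hlf : ∀ s : Finset G, (Subgroup.closure (s : Set G) : Set G).Finite) (T : Subgroup G)
    (hT : ∀ x : G, x ∉ T → T ⊔ Subgroup.zpowers x = ⊤) : commutator G ≤ T := by
  classical
  rw [commutator_def, Subgroup.commutator_le]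
  intro u _ v _
  by_contra hc
  have htop := hT _ hc
  -- a finite subset of `T` is enough
  have hfin : ∀ w ∈ T ⊔ Subgroup.zpowers ⁅u, v⁆, ∃ s : Finset G, (s : Set G) ⊆ T ∧
      w ∈ Subgroup.closure (s : Set G) ⊔ Subgroup.zpowers ⁅u, v⁆ := by
    intro w hw
    rw [Subgroup.sup_eq_closure] at hw
    induction hw using Subgroup.closure_induction with
    | mem x hx =>
      rcases hx with hx | hx
      · exact ⟨{x}, by simpa using hx, Subgroup.mem_sup_left (Subgroup.subset_closure (by simp))⟩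
      · exact ⟨∅, by simp, Subgroup.mem_sup_right hx⟩
    | one => exact ⟨∅, by simp, Subgroup.one_mem _⟩
    | mul x y _ _ ihx ihy =>
      obtain ⟨s, hs, hxs⟩ := ihx
      obtain ⟨t, ht, hyt⟩ := ihy
      refine ⟨s ∪ t, by simp [hs, ht], Subgroup.mul_mem _ ?_ ?_⟩
      · exact sup_le_sup_right (Subgroup.closure_mono (by simp)) _ hxs
      · exact sup_le_sup_right (Subgroup.closure_mono (by simp)) _ hyt
    | inv x _ ih =>
      obtain ⟨s, hs, hxs⟩ := ih
      exact ⟨s, hs, Subgroup.inv_mem _ hxs⟩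
  obtain ⟨s, hs, hus⟩ := hfin u (by rw [htop]; exact Subgroup.mem_top u)
  obtain ⟨t, ht, hvt⟩ := hfin v (by rw [htop]; exact Subgroup.mem_top v)
  have hu : u ∈ Subgroup.closure ((s ∪ t : Finset G) : Set G) ⊔ Subgroup.zpowers ⁅u, v⁆ :=
    sup_le_sup_right (Subgroup.closure_mono (by simp)) _ hus
  have hv : v ∈ Subgroup.closure ((s ∪ t : Finset G) : Set G) ⊔ Subgroup.zpowers ⁅u, v⁆ :=
    sup_le_sup_right (Subgroup.closure_mono (by simp)) _ hvt
  have hstT : Subgroup.closure ((s ∪ t : Finset G) : Set G) ≤ T := by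
    rw [Subgroup.closure_le]
    intro x hx
    rcases Finset.mem_union.1 (Finset.mem_coe.1 hx) with h | h
    · exact hs h
    · exact ht h
  -- the finite group
  set F : Subgroup G := Subgroup.closure ((s ∪ t : Finset G) : Set G) ⊔ Subgroup.zpowers ⁅u, v⁆ with hF
  have hFfin : Finite F := by
    have h1 : (F : Set G).Finite := by
      refine (hlf (insert ⁅u, v⁆ (s ∪ t))).subset ?_
      have : F ≤ Subgroup.closure ((insert ⁅u, v⁆ (s ∪ t) : Finset G) : Set G) := by
        refine sup_le (Subgroup.closure_mono (by simp [Set.subset_def]; tauto)) ?_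
        rw [Subgroup.zpowers_le]
        exact Subgroup.subset_closure (by simp)
      exact this
    exact h1.to_subtype
  have : Fact p.Prime := ⟨hp⟩
  have hnil : Group.IsNilpotent F := (hpG.to_subgroup F).isNilpotent
  have hFn : ∀ H : Subgroup F, H < ⊤ → H < Subgroup.normalizer (H : Set F) := fun H hH =>
    Group.normalizerCondition_of_isNilpotent H hH
  have hcF : ⁅u, v⁆ ∈ F := Subgroup.mem_sup_right (Subgroup.mem_zpowers _)
  have h1 : (⟨⁅u, v⁆, hcF⟩ : F) ∈ commutator F := by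
    have : (⟨⁅u, v⁆, hcF⟩ : F) = ⁅(⟨u, hu⟩ : F), (⟨v, hv⟩ : F)⁆ := Subtype.ext rfl
    rw [this]
    exact Subgroup.commutator_mem_commutator (Subgroup.mem_top _) (Subgroup.mem_top _)
  have h2 : (Subgroup.closure ((s ∪ t : Finset G) : Set G)).subgroupOf F ⊔
      Subgroup.zpowers (⟨⁅u, v⁆, hcF⟩ : F) = ⊤ := by
    rw [eq_top_iff]
    rintro ⟨x, hx⟩ -
    have h3 : F = ((Subgroup.closure ((s ∪ t : Finset G) : Set G)).subgroupOf F ⊔
      Subgroup.zpowers (⟨⁅u, v⁆, hcF⟩ : F)).map F.subtype := by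
      rw [Subgroup.map_sup, Subgroup.subgroupOf_map_subtype, MonoidHom.map_zpowers]
      have : Subgroup.closure ((s ∪ t : Finset G) : Set G) ⊓ F = Subgroup.closure ((s ∪ t : Finset G) : Set G) :=
        inf_eq_left.2 le_sup_left
      rw [this]
      rfl
    have hx' := hx
    rw [h3] at hx'
    obtain ⟨y, hy, hyx⟩ := hx'
    have : y = ⟨x, hx⟩ := Subtype.ext hyx
    rw [← this]
    exact hy
  have h3 := omit_comm hFn _ _ h1 h2
  exact hc (hstT h3)

/-- In a perfect locally finite `p`-group an element can be adjoined to a proper subgroup. -/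
theorem adjoin {p : ℕ} (hp : p.Prime) {G : Type*} [Group G] (hpG : IsPGroup p G)
    (hlf : ∀ s : Finset G, (Subgroup.closure (s : Set G) : Set G).Finite) (hperf : commutator G = ⊤)
    (H : Subgroup G) (hH : H ≠ ⊤) (x : G) : H ⊔ Subgroup.zpowers x ≠ ⊤ := by
  intro h
  have hx : x ∉ H := by
    intro hx
    apply hH
    rw [← h]
    exact (sup_eq_left.2 (by rw [Subgroup.zpowers_le]; exact hx)).symm
  obtain ⟨T, hHT, hT⟩ := zorn_le_nonempty₀ {T : Subgroup G | H ≤ T ∧ x ∉ T} (by
    intro d hd hch L hL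
    refine ⟨sSup d, ⟨le_trans (hd hL).1 (le_sSup hL), ?_⟩, fun z hz => le_sSup hz⟩
    intro hx
    obtain ⟨s, hs, hxs⟩ := le_chain_sSup hch ⟨L, hL⟩ hx
    exact (hd hs).2 hxs) H ⟨le_rfl, hx⟩
  have h1 := commutator_le_of_max hp hpG hlf T (by
    intro y hy
    by_contra hne
    have h2 : x ∉ T ⊔ Subgroup.zpowers y := by
      intro h3
      apply hne
      rw [eq_top_iff, ← h]
      exact sup_le (le_trans hHT le_sup_left) (by rw [Subgroup.zpowers_le]; exact h3)
    have h3 := hT.le_of_ge (y := T ⊔ Subgroup.zpowers y) ⟨le_trans hHT le_sup_left, h2⟩ le_sup_left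
    exact hy (h3 (Subgroup.mem_sup_right (Subgroup.mem_zpowers y))))
  rw [hperf] at h1
  exact hT.prop.2 (h1 (Subgroup.mem_top x))

theorem adjoin_finset {p : ℕ} (hp : p.Prime) {G : Type*} [Group G] (hpG : IsPGroup p G)
    (hlf : ∀ s : Finset G, (Subgroup.closure (s : Set G) : Set G).Finite) (hperf : commutator G = ⊤)
    (H : Subgroup G) (hH : H ≠ ⊤) (s : Finset G) :
    ∃ K : Subgroup G, H ≤ K ∧ (s : Set G) ⊆ K ∧ K ≠ ⊤ := by
  classical
  induction s using Finset.induction_on with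
  | empty => exact ⟨H, le_rfl, by simp, hH⟩
  | insert a s _ ih =>
    obtain ⟨K, h1, h2, h3⟩ := ih
    refine ⟨K ⊔ Subgroup.zpowers a, le_trans h1 le_sup_left, ?_, adjoin hp hpG hlf hperf K h3 a⟩
    intro x hx
    rcases Finset.mem_insert.1 (Finset.mem_coe.1 hx) with rfl | hx
    · exact Subgroup.mem_sup_right (Subgroup.mem_zpowers x)
    · exact Subgroup.mem_sup_left (h2 hx)

/-- The hypothesis of Q1 on a proper subgroup. -/
theorem hyp_of {G : Type*} [Group G]
    (hhyp : ∀ H : Subgroup G, H ≠ ⊤ →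
      ∀ N : Subgroup G, N ≤ H → N ≠ H →
        (∀ n ∈ N, ∀ x ∈ H, x * n * x⁻¹ ∈ N) →
        ∃ h ∈ H, h ∉ N ∧ ∀ x ∈ H, h * x * h⁻¹ * x⁻¹ ∈ N) (H : Subgroup G) (hH : H ≠ ⊤) :
    Hypercentral H := by
  intro N hN hNt
  obtain ⟨h, hhH, hhN, hc⟩ := hhyp H hH (N.map H.subtype) (by
      rintro _ ⟨x, _, rfl⟩
      exact x.2) (by
      intro heq
      apply hNt
      rw [eq_top_iff]
      intro x _
      have : (x : G) ∈ N.map H.subtype := by
        rw [heq]
        exact x.2
      obtain ⟨y, hy, hyx⟩ := this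
      have : y = x := Subtype.ext hyx
      rw [← this]
      exact hy) (by
      rintro _ ⟨n, hn, rfl⟩ x hx
      exact ⟨⟨x, hx⟩ * n * ⟨x, hx⟩⁻¹, hN.conj_mem n hn ⟨x, hx⟩, rfl⟩)
  refine ⟨⟨h, hhH⟩, fun hmem => hhN ⟨⟨h, hhH⟩, hmem, rfl⟩, fun g => ?_⟩
  obtain ⟨y, hy, hyx⟩ := hc g g.2
  have : y = ⁅(⟨h, hhH⟩ : H), g⁆ := Subtype.ext hyx
  rw [← this]
  exact hy

/-- The group satisfies the normalizer condition. -/
theorem ncond {p : ℕ} (hp : p.Prime) {G : Type*} [Group G] (hpG : IsPGroup p G)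
    (hlf : ∀ s : Finset G, (Subgroup.closure (s : Set G) : Set G).Finite) (hperf : commutator G = ⊤)
    (hhyp : ∀ H : Subgroup G, H ≠ ⊤ → Hypercentral H) :
    ∀ H : Subgroup G, H < ⊤ → H < Subgroup.normalizer (H : Set G) := by
  intro H hH
  obtain ⟨x, hx⟩ : ∃ x : G, x ∉ H := by
    by_contra hcon
    push Not at hcon
    exact hH.ne (eq_top_iff.2 fun y _ => hcon y)
  have hX := adjoin hp hpG hlf hperf H hH.ne x
  set X := H ⊔ Subgroup.zpowers x with hXdef
  have h1 := hyp_ncond (hhyp X hX) (H.subgroupOf X) (lt_top_iff_ne_top.2 (by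
    intro h
    have h2 : X ≤ H := Subgroup.subgroupOf_eq_top.1 h
    exact hx (h2 (Subgroup.mem_sup_right (Subgroup.mem_zpowers x)))))
  refine lt_of_le_of_ne Subgroup.le_normalizer ?_
  intro h
  obtain ⟨⟨y, hyX⟩, hyN, hyH⟩ := SetLike.exists_of_lt h1
  apply hyH
  show y ∈ H
  rw [h, Subgroup.mem_normalizer_iff]
  intro g
  constructor
  · intro hg
    exact (Subgroup.mem_normalizer_iff.1 hyN ⟨g, Subgroup.mem_sup_left hg⟩).1 hg
  · intro hg
    have h3 : g ∈ X := by
      have : g = y⁻¹ * (y * g * y⁻¹) * y := by group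
      rw [this]
      exact X.mul_mem (X.mul_mem (X.inv_mem hyX) (Subgroup.mem_sup_left hg)) hyX
    exact (Subgroup.mem_normalizer_iff.1 hyN ⟨g, h3⟩).2 hg

/-- A perfect hypercentral group is trivial (Gruen). -/
theorem not_perfect {G : Type*} [Group G] (hG : Hypercentral G) (hperf : commutator G = ⊤) :
    ¬ Nontrivial G := by
  intro hnt
  have h1 : Subgroup.center G ≠ ⊤ := by
    intro h
    have h2 : commutator G = ⊥ := by
      rw [commutator_def, Subgroup.commutator_eq_bot_iff_le_centralizer]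
      intro x _
      rw [Subgroup.mem_centralizer_iff]
      intro y _
      have hx : x ∈ Subgroup.center G := by rw [h]; exact Subgroup.mem_top x
      exact Subgroup.mem_center_iff.1 hx y
    rw [hperf] at h2
    exact top_ne_bot h2
  obtain ⟨x, hx, hc⟩ := hG (Subgroup.center G) inferInstance h1
  apply hx
  rw [Subgroup.mem_center_iff]
  let f : G →* Subgroup.center G :=
    MonoidHom.mk' (fun g => ⟨⁅x, g⁆, hc g⟩) (by
      intro a b
      apply Subtype.ext
      show ⁅x, a * b⁆ = ⁅x, a⁆ * ⁅x, b⁆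
      have h2 := Subgroup.mem_center_iff.1 (hc b) a
      have h3 : ⁅x, a * b⁆ = ⁅x, a⁆ * (a * ⁅x, b⁆ * a⁻¹) := by
        simp only [commutatorElement_def]
        group
      rw [h3, h2, mul_inv_cancel_right])
  have hker : commutator G ≤ f.ker := by
    rw [commutator_def, Subgroup.commutator_le]
    intro a _ b _
    rw [MonoidHom.mem_ker, map_commutatorElement, commutatorElement_eq_one_iff_mul_comm]
    exact Subtype.ext ((Subgroup.mem_center_iff.1 (f b).2 (f a : G)))
  rw [hperf] at hker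
  intro g
  have h4 : f g = 1 := hker (Subgroup.mem_top g)
  have h5 : ⁅x, g⁆ = 1 := congrArg Subtype.val h4
  exact (commutatorElement_eq_one_iff_mul_comm.1 h5).symm

/-- `G` is not the union of finitely many double cosets of two proper subgroups. -/
theorem double_cosets {p : ℕ} (hp : p.Prime) {G : Type*} [Group G] (hpG : IsPGroup p G)
    (hlf : ∀ s : Finset G, (Subgroup.closure (s : Set G) : Set G).Finite) (hperf : commutator G = ⊤)
    (hhyp : ∀ H : Subgroup G, H ≠ ⊤ → Hypercentral H) (hnt : Nontrivial G)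
    (A B : Subgroup G) (hA : A ≠ ⊤) (hB : B ≠ ⊤) (T : Finset G) :
    ∃ g : G, ∀ a ∈ A, ∀ t ∈ T, ∀ b ∈ B, g ≠ a * t * b := by
  obtain ⟨K, hAK, hTK, hK⟩ := adjoin_finset hp hpG hlf hperf A hA T
  by_contra hcon
  push Not at hcon
  refine not_perfect (twoZ (ncond hp hpG hlf hperf hhyp) K B ?_ (hhyp K hK) (hhyp B hB)) hperf hnt
  intro g
  obtain ⟨a, ha, t, ht, b, hb, h⟩ := hcon g
  exact ⟨a * t, K.mul_mem (hAK ha) (hTK ht), b, hb, h⟩

end Pool.Agent.Lib.MP_af430d_al.DoubleCosetB
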