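import Pool.Agent.Lib.MP_af430d_al.Defs

/-!
# MP_af430d_al job ExpoB: finite exponent

`expo`: a nilpotent group generated by elements of order dividing `m` has finite exponent. Induction on `n` where `(⊤ : Subgroup Γ).lowerCentralSeries n = ⊥` (`Subgroup.nilpotent_iff_lowerCentralSeries`; statement for all groups `Γ` at once).
`n = 0`: trivial group. `n = 1`: abelian, `x ^ m = 1` for all `x` (`Subgroup.closure_induction`, `Commute.mul_pow`). Step `n + 1 → n + 2` (or directly `n → n + 1` with `n ≥ 1`): let `Z = lowerCentralSeries n`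
(last term, `⁅Z, ⊤⁆ = ⊥`, so `Z ≤ center Γ`, `Z` normal), `Γ ⧸ Z` has `lowerCentralSeries n = ⊥` (`Subgroup.map_lowerCentralSeries`) and is generated by the images of `S`; so it has exponent `M'`, i.e. `x ^ M' ∈ Z` for all `x`. And `z ^ m = 1` for all
`z ∈ Z`: `Z = closure {⁅u, x⁆ | u ∈ lowerCentralSeries (n-1), x : Γ}` (`Subgroup.lowerCentralSeries_succ`, `Subgroup.commutator_def`) is abelian, so it suffices that `⁅u, x⁆ ^ m = 1`; for fixed `u`, `x ↦ ⁅u, x⁆` is multiplicative (its values are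
central: `⁅u, x * x'⁆ = ⁅u, x⁆ * ⁅u, x'⁆`), so `⁅u, s⁆ ^ m = ⁅u, s ^ m⁆ = 1` for `s ∈ S`, and then for all `x ∈ closure S = ⊤` by `Subgroup.closure_induction`. So `x ^ (M' * m) = 1`.
-/

namespace AF430

open Subgroup

open scoped commutatorElement

universe v

theorem ExpoB_central {Q : Type v} [Group Q] (S : Set Q) (hS : Subgroup.closure S = ⊤)
    (m : ℕ) (h : ∀ s ∈ S, s ^ m = 1) (u : Q) (hu : ∀ x : Q, ⁅u, x⁆ ∈ Subgroup.center Q) (x : Q) :
    ⁅u, x⁆ ^ m = 1 := by
  have hmul : ∀ x y : Q, ⁅u, x * y⁆ = ⁅u, x⁆ * ⁅u, y⁆ := by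
    intro x y
    have e : ⁅u, x * y⁆ = ⁅u, x⁆ * (x * ⁅u, y⁆ * x⁻¹) := by
      simp only [commutatorElement_def]
      group
    rw [e, Subgroup.mem_center_iff.1 (hu y) x, mul_inv_cancel_right]
  let f : Q →* Q := {
    toFun := fun x => ⁅u, x⁆
    map_one' := commutatorElement_one_right u
    map_mul' := hmul }
  have hf : ∀ x, f x = ⁅u, x⁆ := fun _ => rfl
  have hcomm : ∀ x y : Q, Commute (f x) (f y) := fun x y => Subgroup.mem_center_iff.1 (hu y) (f x)
  have hx : x ∈ Subgroup.closure S := by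
    rw [hS]
    exact Subgroup.mem_top x
  rw [← hf x]
  induction hx using Subgroup.closure_induction with
  | mem s hs => rw [← map_pow, h s hs, map_one]
  | one => rw [map_one, one_pow]
  | mul a b _ _ ha hb => rw [map_mul, (hcomm a b).mul_pow, ha, hb, one_mul]
  | inv a _ ha => rw [map_inv, inv_pow, ha, inv_one]

theorem ExpoB_zero {Γ : Type v} [Group Γ] (S : Set Γ) (hS : Subgroup.closure S = ⊤)
    (m : ℕ) (h : ∀ s ∈ S, s ^ m = 1) (x : Γ) :
    x ^ m ∈ (⊤ : Subgroup Γ).lowerCentralSeries 1 := by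
  rw [Subgroup.top_lowerCentralSeries_one]
  have hx : x ∈ Subgroup.closure S := by
    rw [hS]
    exact Subgroup.mem_top x
  have key : (Abelianization.of x) ^ m = 1 := by
    induction hx using Subgroup.closure_induction with
    | mem s hs => rw [← map_pow, h s hs, map_one]
    | one => rw [map_one, one_pow]
    | mul a b _ _ ha hb => rw [map_mul, mul_pow, ha, hb, one_mul]
    | inv a _ ha => rw [map_inv, inv_pow, ha, inv_one]
  rw [← map_pow] at key
  exact (QuotientGroup.eq_one_iff (x ^ m)).1 key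

theorem ExpoB_succ {Γ : Type v} [Group Γ] (S : Set Γ) (hS : Subgroup.closure S = ⊤)
    (m : ℕ) (h : ∀ s ∈ S, s ^ m = 1) (n : ℕ) (z : Γ)
    (hz : z ∈ (⊤ : Subgroup Γ).lowerCentralSeries (n + 1)) :
    z ^ m ∈ (⊤ : Subgroup Γ).lowerCentralSeries (n + 2) := by
  set L := (⊤ : Subgroup Γ).lowerCentralSeries (n + 2) with hL
  let f : Γ →* Γ ⧸ L := QuotientGroup.mk' L
  have hker : ∀ x : Γ, f x = 1 ↔ x ∈ L := fun x => QuotientGroup.eq_one_iff x
  have hsurj : Function.Surjective f := QuotientGroup.mk'_surjective L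
  have hcl : Subgroup.closure (f '' S) = ⊤ := by
    rw [← MonoidHom.map_closure, hS, ← MonoidHom.range_eq_map, MonoidHom.range_eq_top]
    exact hsurj
  have hpow : ∀ s ∈ f '' S, s ^ m = 1 := by
    rintro _ ⟨s, hs, rfl⟩
    rw [← map_pow, h s hs, map_one]
  have hcen : ∀ w ∈ (⊤ : Subgroup Γ).lowerCentralSeries (n + 1), f w ∈ Subgroup.center (Γ ⧸ L) := by
    intro w hw
    rw [Subgroup.mem_center_iff]
    intro g
    obtain ⟨g, rfl⟩ := hsurj g
    have h1 : ⁅w, g⁆ ∈ L := by
      rw [hL, Subgroup.lowerCentralSeries_succ]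
      exact Subgroup.commutator_mem_commutator hw (Subgroup.mem_top g)
    have h2 : f ⁅w, g⁆ = 1 := (hker _).2 h1
    rw [map_commutatorElement, commutatorElement_eq_one_iff_mul_comm] at h2
    exact h2.symm
  have hz' := (Subgroup.mem_lowerCentralSeries_succ_iff _ _ _).1 hz
  clear hz
  have key : f z ^ m = 1 ∧ f z ∈ Subgroup.center (Γ ⧸ L) := by
    induction hz' using Subgroup.closure_induction with
    | mem s hs =>
      obtain ⟨p, hp, q, -, rfl⟩ := hs
      have h1 : ∀ x : Γ, ⁅p, x⁆ ∈ (⊤ : Subgroup Γ).lowerCentralSeries (n + 1) := by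
        intro x
        rw [Subgroup.lowerCentralSeries_succ]
        exact Subgroup.commutator_mem_commutator hp (Subgroup.mem_top x)
      refine ⟨?_, hcen _ (h1 q)⟩
      rw [map_commutatorElement]
      apply ExpoB_central _ hcl m hpow
      intro x
      obtain ⟨x, rfl⟩ := hsurj x
      rw [← map_commutatorElement]
      exact hcen _ (h1 x)
    | one =>
      rw [map_one, one_pow]
      exact ⟨rfl, Subgroup.one_mem _⟩
    | mul a b _ _ ha hb =>
      have hc : Commute (f a) (f b) := Subgroup.mem_center_iff.1 hb.2 (f a)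
      rw [map_mul, hc.mul_pow, ha.1, hb.1, one_mul]
      exact ⟨rfl, Subgroup.mul_mem _ ha.2 hb.2⟩
    | inv a _ ha =>
      rw [map_inv, inv_pow, ha.1, inv_one]
      exact ⟨rfl, Subgroup.inv_mem _ ha.2⟩
  rw [← hker, map_pow]
  exact key.1

theorem expo {Γ : Type v} [Group Γ] [Group.IsNilpotent Γ] (S : Set Γ) (hS : Subgroup.closure S = ⊤)
    (m : ℕ) (hm : 0 < m) (h : ∀ s ∈ S, s ^ m = 1) : ∃ M : ℕ, 0 < M ∧ ∀ x : Γ, x ^ M = 1 := by
  obtain ⟨c, hc⟩ := Subgroup.nilpotent_iff_lowerCentralSeries.1 (inferInstance : Group.IsNilpotent Γ)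
  have key : ∀ (i : ℕ) (x : Γ), x ^ (m ^ i) ∈ (⊤ : Subgroup Γ).lowerCentralSeries i := by
    intro i
    induction i with
    | zero =>
      intro x
      exact Subgroup.mem_top _
    | succ i ih =>
      intro x
      rw [pow_succ, pow_mul]
      rcases i with _ | i
      · exact ExpoB_zero S hS m h _
      · exact ExpoB_succ S hS m h i _ (ih x)
  refine ⟨m ^ c, pow_pos hm c, fun x => ?_⟩
  have := key c x
  rwa [hc, Subgroup.mem_bot] at this

end AF430
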