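import Pool.Agent.Lib.MP_af430d_al.Defs

/-!
# MP_af430d_al job FinB: finitely many word maps

* `fin_of_fg_sol`: a finitely generated solvable group in which every element has finite order is finite. Induction on the derived length `n` (`derivedSeries Γ n = ⊥`, all groups at once). `n = 0`: trivial. Step: `Γ ⧸ commutator Γ` (or
  `Abelianization Γ`) is a finitely generated abelian torsion group, hence finite (`CommGroup.finite_of_fg_torsion`); so `commutator Γ` has finite index, is finitely generated (`Subgroup.fg_of_index_ne_zero`) with smaller derived length, torsion,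
  hence finite by induction; so `Γ` is finite (`Finite` from finite normal subgroup and finite quotient, e.g. `Finite.of_subgroup_quotient` or cardinalities).
* `WM_finite`: `Γ → Γ` is nilpotent (`Group.isNilpotent_pi_of_bounded_class`), so `WM E` is nilpotent, hence solvable; it is generated by a finite set (images of `E` and `id`); every element `w` satisfies `w ^ M = 1` (pointwise). Apply `fin_of_fg_sol`.
-/

namespace AF430

open Subgroup
open scoped commutatorElement

universe v

theorem FinB_aux (n : ℕ) : ∀ (Γ : Type v) [Group Γ], Group.FG Γ → derivedSeries Γ n = ⊥ →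
    (∀ x : Γ, ∃ M : ℕ, 0 < M ∧ x ^ M = 1) → Finite Γ := by
  induction n with
  | zero =>
    intro Γ _ _ h0 _
    have h1 : (⊤ : Subgroup Γ) = ⊥ := h0
    have : Subsingleton Γ := by
      constructor
      intro a b
      have ha : a ∈ (⊥ : Subgroup Γ) := h1 ▸ Subgroup.mem_top a
      have hb : b ∈ (⊥ : Subgroup Γ) := h1 ▸ Subgroup.mem_top b
      rw [Subgroup.mem_bot.mp ha, Subgroup.mem_bot.mp hb]
    infer_instance
  | succ n ih =>
    intro Γ _ hfg h0 ht
    set K : Subgroup Γ := derivedSeries Γ n with hK
    have : K.Normal := derivedSeries_normal Γ n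
    have := hfg
    have hcomm : ∀ a b : K, a * b = b * a := by
      intro a b
      have h2 : ⁅K, K⁆ = (⊥ : Subgroup Γ) := by
        rw [← h0]
        exact (derivedSeries_succ Γ n).symm
      have h3 : ⁅(a : Γ), (b : Γ)⁆ ∈ (⊥ : Subgroup Γ) := h2 ▸ Subgroup.commutator_mem_commutator a.2 b.2
      have h4 : ⁅(a : Γ), (b : Γ)⁆ = 1 := Subgroup.mem_bot.mp h3
      have h5 := commutatorElement_eq_one_iff_mul_comm.mp h4
      exact Subtype.ext h5
    have hq : Finite (Γ ⧸ K) := by
      refine ih (Γ ⧸ K) (QuotientGroup.fg K) ?_ ?_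
      · rw [← map_derivedSeries_eq (QuotientGroup.mk'_surjective K) n, ← hK]
        exact (QuotientGroup.map_mk'_self K)
      · intro x
        obtain ⟨y, rfl⟩ := QuotientGroup.mk'_surjective K x
        obtain ⟨M, hM, hy⟩ := ht y
        refine ⟨M, hM, ?_⟩
        rw [← map_pow, hy, map_one]
    have := hq
    have : K.FiniteIndex := Subgroup.finiteIndex_of_finite_quotient
    have hKfg : Group.FG K := Subgroup.fg_of_index_ne_zero K
    have hKfin : Finite K := by
      letI : CommGroup K := { (inferInstance : Group K) with mul_comm := hcomm }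
      have : Group.FG K := hKfg
      refine CommGroup.finite_of_fg_isMulTorsion K ?_
      intro x
      obtain ⟨M, hM, hx⟩ := ht (x : Γ)
      refine isOfFinOrder_iff_pow_eq_one.mpr ⟨M, hM, ?_⟩
      exact Subtype.ext hx
    have := hKfin
    exact Finite.of_subgroup_quotient K

theorem fin_of_fg_sol {Γ : Type v} [Group Γ] [Group.IsSolvable Γ] (hfg : Group.FG Γ)
    (ht : ∀ x : Γ, ∃ M : ℕ, 0 < M ∧ x ^ M = 1) : Finite Γ := by
  obtain ⟨n, hn⟩ := (inferInstance : Group.IsSolvable Γ).solvable
  exact FinB_aux n Γ hfg hn ht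

theorem WM_finite {Γ : Type v} [Group Γ] [Group.IsNilpotent Γ] (M : ℕ) (hM : 0 < M)
    (hx : ∀ x : Γ, x ^ M = 1) (E : Set Γ) (hE : E.Finite) : Finite (WM E) := by
  have : Group.IsNilpotent (Γ → Γ) :=
    Group.isNilpotent_pi_of_bounded_class (Group.nilpotencyClass Γ) (fun _ => le_rfl)
  have hfin : ({w : Γ → Γ | ∃ e ∈ E, w = fun _ => e} ∪ {id}).Finite := by
    refine Set.Finite.union ?_ (Set.finite_singleton _)
    refine (hE.image (fun e => (fun _ => e : Γ → Γ))).subset ?_
    rintro w ⟨e, he, rfl⟩
    exact ⟨e, he, rfl⟩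
  have hfg : Group.FG (WM E) := by
    rw [Group.fg_iff_subgroup_fg]
    refine ⟨hfin.toFinset, ?_⟩
    rw [Set.Finite.coe_toFinset]
    rfl
  refine fin_of_fg_sol hfg ?_
  intro w
  refine ⟨M, hM, ?_⟩
  apply Subtype.ext
  funext x
  exact hx _

end AF430
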