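import Pool.Agent.Lib.MP_af430d_al.Defs
import Pool.Agent.Lib.MP_af430d_al.FinB
import Pool.Agent.Lib.MP_af430d_al.CubeB

/-!
# MP_af430d_al job ToolB: Hindman argument

* `exists_stream`: for a finite set `F ⊆ Γ` there is `x` with `P * x ∉ C` for all `P ∈ F`: `Γ ⧸ C` (left cosets) is infinite, choose a coset outside the finite set `{P⁻¹ C}`. Build a sequence of pairs `(F_n, h_n)`: `F_0 = {1}`, `h_n` with
  `P * h_n ∉ C` for all `P ∈ F_n`, `F_{n+1} = F_n ∪ F_n * h_n`. Claim: for `m ∈ Hindman.FP (h.drop n)` and `P ∈ F_n`: `P * m ∉ C`; induction on `m ∈ FP` (generalising `n`): `head`: choice of `h_n`; `tail`: `F_n ⊆ F_{n+1}`;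
  `cons`: `P * (h_n * m') = (P * h_n) * m'` with `P * h_n ∈ F_{n+1}`. Take `n = 0`, `P = 1`.
* `toolT`: suppose `C.index = 0`, take the stream `h`. For `m ∈ FP h`: `m ∉ C`, so `a ∈ closure (E ∪ {m})`, so there is `w ∈ WM E` with `w m = a` (the evaluation homomorphism at `m` maps `WM E` onto `closure (E ∪ {m})`,
  `MonoidHom.map_closure`). `WM E` is finite (`WM_finite`), so by Hindman's theorem (Mathlib `Hindman.FP_partition_regular`) for the finite cover by the sets `{m | w m = a}` there are `w ∈ WM E` and a stream `b` with `w m = a` for all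
  `m ∈ FP b`. By `cube`, `w 1 = a`; but `w 1 ∈ closure (E ∪ {1}) = E`. Contradiction.
-/

namespace AF430

open Subgroup

universe v

theorem ToolB_next {Γ : Type v} [Group Γ] (C : Subgroup Γ) (hC : C.index = 0) (F : Finset Γ) :
    ∃ x : Γ, ∀ P ∈ F, P * x ∉ C := by
  classical
  have hinf : Infinite (Γ ⧸ C) := Subgroup.index_eq_zero_iff_infinite.1 hC
  obtain ⟨q, hq⟩ := Infinite.exists_notMem_finset (F.image fun P => ((P⁻¹ : Γ) : Γ ⧸ C))
  obtain ⟨x, rfl⟩ := QuotientGroup.mk_surjective q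
  refine ⟨x, fun P hP hmem => hq ?_⟩
  rw [Finset.mem_image]
  refine ⟨P, hP, ?_⟩
  rw [QuotientGroup.eq, inv_inv]
  exact hmem

theorem exists_stream {Γ : Type v} [Group Γ] (C : Subgroup Γ) (hC : C.index = 0) :
    ∃ h : Stream' Γ, ∀ m ∈ Hindman.FP h, m ∉ C := by
  classical
  choose next hnext using ToolB_next C hC
  obtain ⟨F, hF0, hF⟩ : ∃ F : ℕ → Finset Γ, F 0 = {1} ∧
      ∀ n, F (n + 1) = F n ∪ (F n).image (fun P => P * next (F n)) :=
    ⟨fun n => Nat.rec {1} (fun _ F => F ∪ F.image (fun P => P * next F)) n, rfl, fun n => rfl⟩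
  obtain ⟨h, hh⟩ : ∃ h : Stream' Γ, ∀ n, h.get n = next (F n) := ⟨fun n => next (F n), fun n => rfl⟩
  refine ⟨h, ?_⟩
  have key : ∀ (s : Stream' Γ) (m : Γ), Hindman.FP s m → ∀ n, s = Stream'.drop n h →
      ∀ P ∈ F n, P * m ∉ C := by
    intro s m hm
    induction hm with
    | head' a =>
      intro n hn P hP
      rw [hn, Stream'.head_drop, hh]
      exact hnext (F n) P hP
    | tail' a m _ ih =>
      intro n hn P hP
      refine ih (n + 1) (by rw [hn, Stream'.tail_drop']) P ?_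
      rw [hF]
      exact Finset.mem_union_left _ hP
    | cons' a m _ ih =>
      intro n hn P hP
      rw [← mul_assoc]
      refine ih (n + 1) (by rw [hn, Stream'.tail_drop']) _ ?_
      rw [hF, hn, Stream'.head_drop, hh]
      exact Finset.mem_union_right _ (Finset.mem_image_of_mem _ hP)
  intro m hm
  have h1 := key h m hm 0 rfl 1 (by rw [hF0]; exact Finset.mem_singleton_self 1)
  rwa [one_mul] at h1

theorem toolT {Γ : Type v} [Group Γ] [Group.IsNilpotent Γ] (M : ℕ) (hM : 0 < M)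
    (hx : ∀ x : Γ, x ^ M = 1) (E : Subgroup Γ) (hE : (E : Set Γ).Finite) (a : Γ) (ha : a ∉ E)
    (C : Subgroup Γ) (h : ∀ g : Γ, g ∉ C → a ∈ Subgroup.closure ((E : Set Γ) ∪ {g})) :
    C.index ≠ 0 := by
  intro hC
  obtain ⟨s, hs⟩ := exists_stream C hC
  have hex : ∀ m : Γ, m ∉ C → ∃ w ∈ WM (E : Set Γ), w m = a := by
    intro m hm
    have h1 := h m hm
    have h2 : (WM (E : Set Γ)).map (Pi.evalMonoidHom (fun _ : Γ => Γ) m) =
        Subgroup.closure ((E : Set Γ) ∪ {m}) := by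
      unfold WM
      rw [MonoidHom.map_closure]
      congr 1
      ext x
      constructor
      · rintro ⟨w, hw, rfl⟩
        rcases hw with ⟨e, he, rfl⟩ | hw
        · left
          exact he
        · right
          rw [Set.mem_singleton_iff] at hw
          rw [hw]
          rfl
      · rintro (hx | hx)
        · exact ⟨fun _ => x, Or.inl ⟨x, hx, rfl⟩, rfl⟩
        · rw [Set.mem_singleton_iff] at hx
          exact ⟨id, Or.inr rfl, hx.symm⟩
    rw [← h2] at h1
    obtain ⟨w, hw, hwm⟩ := h1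
    exact ⟨w, hw, hwm⟩
  have hfin : ((WM (E : Set Γ) : Subgroup (Γ → Γ)) : Set (Γ → Γ)).Finite := by
    have := WM_finite M hM hx (E : Set Γ) hE
    exact Set.toFinite _
  obtain ⟨c, hc, b, hb⟩ := Hindman.FP_partition_regular s
    ((fun w : Γ → Γ => {m : Γ | w m = a}) '' ((WM (E : Set Γ) : Subgroup (Γ → Γ)) : Set (Γ → Γ)))
    (hfin.image _) (by
      intro m hm
      obtain ⟨w, hw, hwm⟩ := hex m (hs m hm)
      exact ⟨{m : Γ | w m = a}, ⟨w, hw, rfl⟩, hwm⟩)
  obtain ⟨w, hw, rfl⟩ := hc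
  have h1 : w 1 = a := cube (E : Set Γ) w hw a b (fun m hm => hb hm)
  have h2 : WM (E : Set Γ) ≤ E.comap (Pi.evalMonoidHom (fun _ : Γ => Γ) 1) := by
    unfold WM
    rw [Subgroup.closure_le]
    rintro v (⟨e, he, rfl⟩ | hv)
    · exact he
    · rw [Set.mem_singleton_iff] at hv
      rw [hv]
      exact E.one_mem
  exact ha (h1 ▸ h2 hw)

end AF430
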