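import Pool.Agent.Lib.MP_af430d_al.Defs
import Pool.Agent.Lib.MP_af430d_al.ToolB
import Pool.Agent.Lib.MP_af430d_al.ExpoB

/-!
# MP_af430d_al job FamA: the centralizer of `y` has finite index in the normal closure of a finite set

* `normalClosure_tool`: `H.relIndex M_S ≠ 0`. `M = M_S` is contained in a nilpotent normal subgroup (`fit`), so it is nilpotent (as a group: `Subgroup.isNilpotent`, transfer along `Subgroup.inclusion`/`subgroupOf` equivalence), it is generated by the
  conjugates of elements of `S`, whose orders divide some `m > 0` (`m` = product of the orders of the finitely many elements of `S`, finite as `G` is a `p`-group), so it has finite exponent by `expo` (with `Γ = ↥M`, generators = the elements of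
  `M` that are conjugates in `G` of elements of `S`; `normalClosure S = closure (Group.conjugatesOfSet S)`). Apply `toolT` in `Γ = ↥M` to `E.subgroupOf M`, `a`, `C = H.subgroupOf M`; the closure of a subset of `M` computed in `M` or in `G` is the
  same (`Subgroup.closure` and `map subtype`).
-/

namespace AF430

open Subgroup

universe v

theorem FamA_nilp {G : Type v} [Group G] {N N₀ : Subgroup G} (hle : N ≤ N₀)
    (h : Group.IsNilpotent N₀) : Group.IsNilpotent N := by
  obtain ⟨n, hn⟩ := (Subgroup.isNilpotent_iff_lowerCentralSeries N₀).1 h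
  refine (Subgroup.isNilpotent_iff_lowerCentralSeries N).2 ⟨n, ?_⟩
  rw [eq_bot_iff, ← hn]
  exact Subgroup.lowerCentralSeries_mono n hle

theorem normalClosure_tool {p : ℕ} (hp : p.Prime) {G : Type v} [Group G] (h : Hy p G) (E : Subgroup G) (a y : G)
    (ha : a ∉ E) (hleaf : ∀ g : G, g * y ≠ y * g → a ∈ Subgroup.closure ((E : Set G) ∪ {g}))
    (S : Finset G) (hES : (E : Set G) ⊆ S) (haS : a ∈ S) :
    (Subgroup.centralizer ({y} : Set G)).relIndex (Subgroup.normalClosure (S : Set G)) ≠ 0 := by
  obtain ⟨N₀, hN₀, hnil, hSN₀⟩ := h.fit S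
  have hle : Subgroup.normalClosure (S : Set G) ≤ N₀ := Subgroup.normalClosure_le_normal hSN₀
  have hN : Group.IsNilpotent (Subgroup.normalClosure (S : Set G)) := FamA_nilp hle hnil
  set N := Subgroup.normalClosure (S : Set G) with hNdef
  have hSN : (S : Set G) ⊆ N := Subgroup.subset_normalClosure
  -- a common multiple of the orders
  have hfin : ∀ s : G, IsOfFinOrder s := by
    intro s
    obtain ⟨k, hk⟩ := h.pgp s
    exact isOfFinOrder_iff_pow_eq_one.2 ⟨p ^ k, pow_pos hp.pos k, hk⟩
  set m := ∏ s ∈ S, orderOf s with hm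
  have hmpos : 0 < m := Finset.prod_pos fun s _ => (hfin s).orderOf_pos
  have hSm : ∀ s ∈ S, s ^ m = 1 := fun s hs =>
    orderOf_dvd_iff_pow_eq_one.1 (Finset.dvd_prod_of_mem _ hs)
  have hgen : Subgroup.closure ((fun x : N => (x : G)) ⁻¹' (Group.conjugatesOfSet (S : Set G))) =
      (⊤ : Subgroup N) := Subgroup.closure_closure_coe_preimage
  obtain ⟨M, hM, hMx⟩ := expo (Γ := N) _ hgen m hmpos (by
    intro x hx
    obtain ⟨s, hs, hsx⟩ := Group.mem_conjugatesOfSet_iff.1 hx
    obtain ⟨c, hc⟩ := isConj_iff.1 hsx
    have hc' : c * s * c⁻¹ = (x : G) := hc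
    apply Subtype.ext
    rw [Subgroup.coe_pow, ← hc', conj_pow, hSm s hs]
    simp)
  have hEN : E ≤ N := fun e he => hSN (hES he)
  have haN : a ∈ N := hSN haS
  have key := toolT (Γ := N) M hM hMx (E.subgroupOf N) (by
      have h1 : (E : Set G).Finite := S.finite_toSet.subset hES
      have h2 : ((fun x : N => (x : G)) ⁻¹' (E : Set G)).Finite :=
        h1.preimage Subtype.val_injective.injOn
      exact h2)
    ⟨a, haN⟩ (fun hcon => ha (Subgroup.mem_subgroupOf.1 hcon))
    ((Subgroup.centralizer ({y} : Set G)).subgroupOf N) (by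
      intro g hg
      have h1 : (g : G) * y ≠ y * g := by
        intro hcon
        apply hg
        rw [Subgroup.mem_subgroupOf, Subgroup.mem_centralizer_singleton_iff]
        exact hcon
      have h2 := hleaf g h1
      have h3 : (E : Set G) ∪ {(g : G)} =
          N.subtype '' ((E.subgroupOf N : Set N) ∪ {g}) := by
        rw [Set.image_union, Set.image_singleton]
        congr 1
        ext e
        constructor
        · intro he
          exact ⟨⟨e, hEN he⟩, Subgroup.mem_subgroupOf.2 he, rfl⟩
        · rintro ⟨e', he', rfl⟩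
          exact Subgroup.mem_subgroupOf.1 he'
      rw [h3, ← MonoidHom.map_closure] at h2
      obtain ⟨x, hx, hxa⟩ := Subgroup.mem_map.1 h2
      have : x = ⟨a, haN⟩ := Subtype.ext hxa
      rw [← this]
      exact hx)
  exact key


end AF430
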