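import Pool.Agent.Lib.MP_af430d_al.Defs
import Pool.Agent.Lib.MP_af430d_al.FamA

/-!
# MP_af430d_al job FamB: the family of good normal subgroups

Let `H = centralizer {y}`, i.e. `g ∈ H ↔ g * y = y * g`. For a finite set `S` with `E ∪ {a} ⊆ S` put `M_S = normalClosure S` and `N_S = ⁅M_S, ⊤⁆`. The family is `𝒩 = {N_S}`.
* `normalClosure_tool` (job FamA, imported): `H.relIndex M_S ≠ 0`.
* `comm_comm`: for a perfect group and a normal subgroup `M`: `⁅M, ⊤⁆ ≤ ⁅⁅M, ⊤⁆, ⊤⁆`. Three subgroups lemma modulo `L = ⁅⁅M, ⊤⁆, ⊤⁆`: `⁅⁅M,⊤⁆,⊤⁆ ≤ L` and `⁅⁅⊤,M⁆,⊤⁆ ≤ L` give `⁅⁅⊤,⊤⁆,M⁆ ≤ L`, and `⁅⊤,⊤⁆ = ⊤`.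
  (`Subgroup.commutator_commutator_eq_bot_of_rotate` in the quotient by `L`, with `Subgroup.map_commutator`.)
* every `x : G` lies in `N_S` for some finite `S`: the set of such `x` is a subgroup (union of the finite sets, monotonicity) containing all commutators `⁅u, v⁆` (`u ∈ S`), so it is `⊤` by perfectness (`closure_induction` on `commutator_eq_closure`).
* So for `N_S ∈ 𝒩` and a finset `s` there is `S' ⊇ S` with `s ⊆ N_{S'}`; and `H.relIndex N_{S'} ≠ 0` because `N_{S'} ≤ M_{S'}` (`Subgroup.relIndex_ne_zero_trans`-like: `relIndex` is monotone, e.g. `Subgroup.relIndex_inf_ne_zero` or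
  `Subgroup.relIndex_dvd_of_le_left`…; `(H.subgroupOf M).index ≠ 0` implies `H.relIndex N ≠ 0` for `N ≤ M`, `Subgroup.relIndex_ne_zero_of_le…`, or by an injection of cosets).
-/

namespace AF430

open Subgroup

universe v

theorem comm_comm {G : Type v} [Group G] (hperf : commutator G = ⊤) (M : Subgroup G) [M.Normal] :
    ⁅M, (⊤ : Subgroup G)⁆ ≤ ⁅⁅M, (⊤ : Subgroup G)⁆, (⊤ : Subgroup G)⁆ := by
  have hL : ∀ X : Subgroup G, X ≤ ⁅⁅M, (⊤ : Subgroup G)⁆, (⊤ : Subgroup G)⁆ →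
      X.map (QuotientGroup.mk' ⁅⁅M, (⊤ : Subgroup G)⁆, (⊤ : Subgroup G)⁆) = ⊥ := by
    intro X hX
    rw [Subgroup.map_eq_bot_iff, QuotientGroup.ker_mk']
    exact hX
  have key : (⁅⁅(⊤ : Subgroup G), (⊤ : Subgroup G)⁆, M⁆).map
      (QuotientGroup.mk' ⁅⁅M, (⊤ : Subgroup G)⁆, (⊤ : Subgroup G)⁆) = ⊥ := by
    rw [Subgroup.map_commutator, Subgroup.map_commutator]
    apply Subgroup.commutator_commutator_eq_bot_of_rotate
    · rw [← Subgroup.map_commutator, ← Subgroup.map_commutator]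
      apply hL
      rw [Subgroup.commutator_comm ⊤ M]
    · rw [← Subgroup.map_commutator, ← Subgroup.map_commutator]
      exact hL _ le_rfl
  rw [Subgroup.map_eq_bot_iff, QuotientGroup.ker_mk'] at key
  have h2 : ⁅(⊤ : Subgroup G), (⊤ : Subgroup G)⁆ = ⊤ := hperf
  rw [h2, Subgroup.commutator_comm ⊤ M] at key
  exact key

theorem FamB_mono {G : Type v} [Group G] {S T : Finset G} (h : (S : Set G) ⊆ T) :
    ⁅Subgroup.normalClosure (S : Set G), (⊤ : Subgroup G)⁆ ≤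
      ⁅Subgroup.normalClosure (T : Set G), (⊤ : Subgroup G)⁆ :=
  Subgroup.commutator_mono (Subgroup.normalClosure_mono h) le_rfl

theorem FamB_cover {G : Type v} [Group G] (hperf : commutator G = ⊤) (x : G) :
    ∃ T : Finset G, x ∈ ⁅Subgroup.normalClosure (T : Set G), (⊤ : Subgroup G)⁆ := by
  classical
  have hx : x ∈ Subgroup.closure (commutatorSet G) := by
    rw [← commutator_eq_closure, hperf]
    exact Subgroup.mem_top x
  induction hx using Subgroup.closure_induction with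
  | mem z hz =>
    obtain ⟨u, w, rfl⟩ := hz
    refine ⟨{u}, Subgroup.commutator_mem_commutator ?_ (Subgroup.mem_top w)⟩
    apply Subgroup.subset_normalClosure
    simp
  | one => exact ⟨∅, Subgroup.one_mem _⟩
  | mul y z _ _ hy hz =>
    obtain ⟨T1, h1⟩ := hy
    obtain ⟨T2, h2⟩ := hz
    refine ⟨T1 ∪ T2, Subgroup.mul_mem _ (FamB_mono ?_ h1) (FamB_mono ?_ h2)⟩
    · rw [Finset.coe_union]
      exact Set.subset_union_left
    · rw [Finset.coe_union]
      exact Set.subset_union_right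
  | inv y _ hy =>
    obtain ⟨T1, h1⟩ := hy
    exact ⟨T1, Subgroup.inv_mem _ h1⟩

theorem family {p : ℕ} (hp : p.Prime) {G : Type v} [Group G] (h : Hy p G) (E : Subgroup G) (a y : G)
    (hE : (E : Set G).Finite) (ha : a ∉ E)
    (hleaf : ∀ g : G, g * y ≠ y * g → a ∈ Subgroup.closure ((E : Set G) ∪ {g})) :
    ∃ 𝒩 : Set (Subgroup G), 𝒩.Nonempty ∧ (∀ N ∈ 𝒩, Good (Subgroup.centralizer {y}) N) ∧
      ∀ N ∈ 𝒩, ∀ s : Finset G, ∃ N' ∈ 𝒩, N ≤ N' ∧ (s : Set G) ⊆ N' := by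
  classical
  refine ⟨{N | ∃ S : Finset G, (E : Set G) ⊆ S ∧ a ∈ S ∧
    N = ⁅Subgroup.normalClosure (S : Set G), (⊤ : Subgroup G)⁆}, ?_, ?_, ?_⟩
  · refine ⟨⁅Subgroup.normalClosure ((insert a hE.toFinset : Finset G) : Set G),
      (⊤ : Subgroup G)⁆, insert a hE.toFinset, ?_, Finset.mem_insert_self _ _, rfl⟩
    intro x hx
    rw [Finset.coe_insert, Set.Finite.coe_toFinset]
    exact Set.mem_insert_of_mem a hx
  · rintro N ⟨S, hES, haS, rfl⟩
    refine ⟨inferInstance, comm_comm h.perf _, ?_⟩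
    intro h0
    exact normalClosure_tool hp h E a y ha hleaf S hES haS
      (Subgroup.relIndex_eq_zero_of_le_right (Subgroup.commutator_le_left _ _) h0)
  · rintro N ⟨S, hES, haS, rfl⟩ s
    choose T hT using FamB_cover h.perf
    have hsub : ∀ x ∈ s, (T x : Set G) ⊆ ((S ∪ s.biUnion T : Finset G) : Set G) := by
      intro x hx z hz
      rw [Finset.mem_coe, Finset.mem_union, Finset.mem_biUnion]
      exact Or.inr ⟨x, hx, hz⟩
    refine ⟨_, ⟨S ∪ s.biUnion T, ?_, Finset.mem_union_left _ haS, rfl⟩, FamB_mono ?_, ?_⟩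
    · refine hES.trans ?_
      rw [Finset.coe_union]
      exact Set.subset_union_left
    · rw [Finset.coe_union]
      exact Set.subset_union_left
    · intro x hx
      exact FamB_mono (hsub x hx) (hT x)

end AF430
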