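import Pool.Agent.Lib.MP_af430d_al.Defs
import Pool.Agent.Lib.MP_af430d_al.ActB

/-!
# MP_af430d_al job IndB: independent lists

`AA N H l` is the intersection of the subgroups `act N h C`, `C = CN N H`, `h ∈ l`; all `act N h C` are normal in `N` (`CN` is a normal core, `act_normal`), hence so is `AA`.

* `AA_map`: induction on `l`, `act_inf`, `act_top`, `act_mul`. `Ind_map`: induction, `act_sup`, `act_top`.
* `AA_sublist`, `Ind_sublist`: induction on the `Sublist` relation; in the `cons₂` case `act N h C ⊔ AA l ≥ act N h C ⊔ AA l' = ⊤` by `AA_sublist`.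
* `AA_index`: `Subgroup.index_inf_le` and `Subgroup.index_inf_ne_zero`, `act_index`.
You may import Pool.Agent.Lib.MP_af430d_al.ActB (basic lemmas on `act`).
-/

namespace AF430

open Subgroup

universe v

variable {G : Type v} [Group G] (N : Subgroup G) [N.Normal] (H : Subgroup G)

theorem CN_normal : (CN N H).Normal := Subgroup.normalCore_normal _

theorem AA_normal (l : List G) : (AA N H l).Normal := by
  induction l with
  | nil => exact (inferInstance : (⊤ : Subgroup N).Normal)
  | cons h l ih =>
    have h1 : (act N h (CN N H)).Normal := act_normal N h _ (CN_normal N H)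
    show (act N h (CN N H) ⊓ AA N H l).Normal
    exact Subgroup.normal_inf_normal _ _

theorem AA_le_of_mem (l : List G) (h : G) (hl : h ∈ l) : AA N H l ≤ act N h (CN N H) := by
  induction l with
  | nil => exact absurd hl List.not_mem_nil
  | cons a l ih =>
    show act N a (CN N H) ⊓ AA N H l ≤ _
    rcases List.mem_cons.1 hl with rfl | hl'
    · exact inf_le_left
    · exact inf_le_right.trans (ih hl')

theorem AA_map (g : G) (l : List G) : AA N H (l.map (g * ·)) = act N g (AA N H l) := by
  induction l with
  | nil => exact (act_top N g).symm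
  | cons a l ih =>
    show act N (g * a) (CN N H) ⊓ AA N H (l.map (g * ·)) = act N g (act N a (CN N H) ⊓ AA N H l)
    rw [ih, act_inf, act_mul]

theorem Ind_map (g : G) (l : List G) (h : Ind N H l) : Ind N H (l.map (g * ·)) := by
  induction l with
  | nil => trivial
  | cons a l ih =>
    obtain ⟨h1, h2⟩ := h
    show act N (g * a) (CN N H) ⊔ AA N H (l.map (g * ·)) = ⊤ ∧ Ind N H (l.map (g * ·))
    refine ⟨?_, ih h2⟩
    rw [AA_map, act_mul, ← act_sup, h1, act_top]

theorem AA_sublist (l l' : List G) (h : l.Sublist l') : AA N H l' ≤ AA N H l := by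
  induction h with
  | slnil => exact le_rfl
  | cons a _ ih => exact inf_le_right.trans ih
  | cons_cons a _ ih => exact inf_le_inf_left _ ih

theorem Ind_sublist (l l' : List G) (h : l.Sublist l') (hl : Ind N H l') : Ind N H l := by
  induction h with
  | slnil => trivial
  | cons a _ ih => exact ih hl.2
  | cons_cons a hs ih =>
    refine ⟨?_, ih hl.2⟩
    refine top_le_iff.1 ?_
    rw [← hl.1]
    exact sup_le_sup_left (AA_sublist N H _ _ hs) _

theorem AA_index (hC : (CN N H).index ≠ 0) (l : List G) :
    (AA N H l).index ≠ 0 ∧ (AA N H l).index ≤ (CN N H).index ^ l.length := by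
  induction l with
  | nil =>
    show (⊤ : Subgroup N).index ≠ 0 ∧ (⊤ : Subgroup N).index ≤ _
    rw [Subgroup.index_top]
    simp
  | cons a l ih =>
    obtain ⟨h1, h2⟩ := ih
    show (act N a (CN N H) ⊓ AA N H l).index ≠ 0 ∧ (act N a (CN N H) ⊓ AA N H l).index ≤ _
    refine ⟨Subgroup.index_inf_ne_zero (by rw [act_index]; exact hC) h1, ?_⟩
    refine Subgroup.index_inf_le.trans ?_
    rw [act_index, List.length_cons, pow_succ']
    exact Nat.mul_le_mul_left _ h2

end AF430
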