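import Pool.Agent.Lib.MP_af430d_al.Defs
import Pool.Agent.Lib.MP_af430d_al.ActB
import Pool.Agent.Lib.MP_af430d_al.IndB

/-!
# MP_af430d_al job IndC: Chinese remainder theorem for independent lists

`AA N H l` is the intersection of the subgroups `act N h C`, `C = CN N H`, `h ∈ l`; all `act N h C` are normal in `N` (`CN_normal`, `act_normal`), hence so is `AA` (`AA_normal`).

* `CRT` (Chinese remainder theorem): induction on `l`. Given `n₀` for `l` and a new pair `(h, t)` with `act N h C ⊔ AA l = ⊤`: as `act N h C` is normal, `⊤ = ` the product set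
  (`Subgroup.mem_sup_of_normal_right` or `Subgroup.mem_sup_of_normal_left`); write `n₀⁻¹ * t = z * k` with `z ∈ AA l`, `k ∈ act N h C`; then `n = n₀ * z` works:
  `t⁻¹ * n₀ * z = k⁻¹ ∈ act N h C`, and `q.2⁻¹ * n₀ * z ∈ act N q.1 C` for `q ∈ l` since `z ∈ AA l ≤ act N q.1 C`.
* `Ind_cons_of_not_le`: the negation of `A ≤ act N g M` for all `M ≠ ⊤` above `C` gives `act N g C ⊔ A = ⊤`: otherwise take `M = act N g⁻¹ (act N g C ⊔ A)`.
* `AA_congr`: induction on `l` (and `l'`), `AA` and `Ind` only use the subgroups `act N h C`.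
You may import Pool.Agent.Lib.MP_af430d_al.ActB (basic lemmas on `act`) and IndB.
-/

namespace AF430

open Subgroup

universe v

variable {G : Type v} [Group G] (N : Subgroup G) [N.Normal] (H : Subgroup G)

theorem CRT (l : List (G × N)) (h : Ind N H (l.map Prod.fst)) :
    ∃ n : N, ∀ q ∈ l, q.2⁻¹ * n ∈ act N q.1 (CN N H) := by
  induction l with
  | nil => exact ⟨1, fun q hq => absurd hq List.not_mem_nil⟩
  | cons p l ih =>
    obtain ⟨h1, h2⟩ := h
    obtain ⟨n, hn⟩ := ih h2
    have hno : (act N p.1 (CN N H)).Normal := act_normal N _ _ (CN_normal N H)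
    have h3 : n⁻¹ * p.2 ∈ AA N H (l.map Prod.fst) ⊔ act N p.1 (CN N H) := by
      rw [sup_comm]
      have h1' : act N p.1 (CN N H) ⊔ AA N H (l.map Prod.fst) = ⊤ := h1
      rw [h1']
      trivial
    obtain ⟨z, hz, k, hk, hzk⟩ := Subgroup.mem_sup_of_normal_right.1 h3
    refine ⟨n * z, fun q hq => ?_⟩
    rcases List.mem_cons.1 hq with rfl | hq'
    · have h4 : q.2⁻¹ * (n * z) = k⁻¹ := by
        have h5 : q.2 = n * (z * k) := by rw [hzk]; group
        rw [h5]; group
      rw [h4]
      exact Subgroup.inv_mem _ hk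
    · rw [← mul_assoc]
      exact Subgroup.mul_mem _ (hn q hq') (AA_le_of_mem N H _ _ (List.mem_map_of_mem hq') hz)

theorem sup_of_not_le (g : G) (C A : Subgroup N)
    (h : ∀ M : Subgroup N, C ≤ M → M ≠ ⊤ → ¬ (A ≤ act N g M)) : act N g C ⊔ A = ⊤ := by
  by_contra hne
  apply h (act N g⁻¹ (act N g C ⊔ A))
  · have h1 := act_mono N g⁻¹ (le_sup_left : act N g C ≤ act N g C ⊔ A)
    rwa [act_inv_act] at h1
  · intro h2
    apply hne
    have h3 := congrArg (act N g) h2
    rwa [act_act_inv, act_top] at h3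
  · rw [act_act_inv]
    exact le_sup_right

/-- Only the subgroups `act N h C` matter. -/
theorem AA_congr (l : List G) (l' : List G) (h : l.map (fun x => act N x (CN N H)) = l'.map (fun x => act N x (CN N H))) :
    AA N H l = AA N H l' ∧ (Ind N H l ↔ Ind N H l') := by
  induction l generalizing l' with
  | nil =>
    cases l' with
    | nil => exact ⟨rfl, Iff.rfl⟩
    | cons a l' => exact absurd h (by simp)
  | cons b l ih =>
    cases l' with
    | nil => exact absurd h (by simp)
    | cons a l' =>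
      rw [List.map_cons, List.map_cons] at h
      obtain ⟨h1, h2⟩ := List.cons.inj h
      obtain ⟨h3, h4⟩ := ih l' h2
      refine ⟨?_, ?_⟩
      · show act N b (CN N H) ⊓ AA N H l = act N a (CN N H) ⊓ AA N H l'
        rw [h1, h3]
      · show (act N b (CN N H) ⊔ AA N H l = ⊤ ∧ Ind N H l) ↔ (act N a (CN N H) ⊔ AA N H l' = ⊤ ∧ Ind N H l')
        rw [h1, h3, h4]

end AF430
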