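import Pool.Agent.Lib.MP_af430d_al.Defs

/-!
# MP_af430d_al job LeafB: the leaf

`leaf`. As `Z(G) = 1` and `G ≠ 1`, `G` is not cyclic (a cyclic group is abelian); take `t ≠ 1` and `a ∉ closure {t}`. Suppose the claim fails: (*) for every finite subgroup `E` with `a ∉ E` and every `y ≠ 1` there is `g` not commuting
with `y` such that `a ∉ closure (E ∪ {g})`; this closure is finite by local finiteness (`lf` for the finset `E ∪ {g}`). By induction on a finset `Y` of elements `≠ 1`: for every finite subgroup `E` avoiding `a` there is a finite subgroup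
`E' ≥ E` avoiding `a` such that each `y ∈ Y` fails to commute with some element of `E'`. So there is a sequence `E_0 = closure {t} ≤ E_1 ≤ …` of finite subgroups avoiding `a` such that every `y ∈ E_n`, `y ≠ 1` fails to commute with some element
of `E_{n+1}` (recursion on the subtype of finite subgroups avoiding `a`). Let `K = ⨆ E_n` (directed union, `Subgroup.mem_iSup_of_directed`): `a ∉ K`, so `K ≠ ⊤`; `t ∈ K`. By `hyp K` with `N = ⊥` (`⊥ ≠ K` as `t ≠ 1`) there is
`y ∈ K`, `y ≠ 1` with `y x y⁻¹ x⁻¹ = 1` for all `x ∈ K`. But `y ∈ E_n` for some `n`, contradiction with the choice of `E_{n+1}`.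
-/

namespace AF430

open Subgroup

universe v

theorem LeafB_step {p : ℕ} {G : Type v} [Group G] (h : Hy p G) (a : G)
    (hs : ∀ (E : Subgroup G) (y : G), (E : Set G).Finite → a ∉ E → y ≠ 1 →
      ∃ g : G, g * y ≠ y * g ∧ a ∉ Subgroup.closure ((E : Set G) ∪ {g})) (Y : Finset G) :
    (∀ y ∈ Y, y ≠ 1) → ∀ E : Subgroup G, (E : Set G).Finite → a ∉ E →
      ∃ E' : Subgroup G, (E' : Set G).Finite ∧ a ∉ E' ∧ E ≤ E' ∧ ∀ y ∈ Y, ∃ g ∈ E', g * y ≠ y * g := by
  classical
  induction Y using Finset.induction_on with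
  | empty =>
    intro _ E hE ha
    exact ⟨E, hE, ha, le_rfl, by simp⟩
  | insert z Y hz ih =>
    intro hY E hE ha
    obtain ⟨E1, h1f, h1a, h1E, h1Y⟩ := ih (fun y hy => hY y (Finset.mem_insert_of_mem hy)) E hE ha
    obtain ⟨g, hg, hga⟩ := hs E1 z h1f h1a (hY z (Finset.mem_insert_self z Y))
    have hfin : (Subgroup.closure ((E1 : Set G) ∪ {g}) : Set G).Finite := by
      have h2 := h.lf (insert g h1f.toFinset)
      have h3 : ((insert g h1f.toFinset : Finset G) : Set G) = (E1 : Set G) ∪ {g} := by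
        rw [Finset.coe_insert, Set.Finite.coe_toFinset, Set.union_singleton]
      rwa [h3] at h2
    have hle : E1 ≤ Subgroup.closure ((E1 : Set G) ∪ {g}) := by
      intro x hx
      exact Subgroup.subset_closure (Or.inl hx)
    refine ⟨Subgroup.closure ((E1 : Set G) ∪ {g}), hfin, hga, h1E.trans hle, ?_⟩
    intro y hy
    rcases Finset.mem_insert.mp hy with rfl | hy
    · exact ⟨g, Subgroup.subset_closure (Or.inr rfl), hg⟩
    · obtain ⟨x, hx, hxy⟩ := h1Y y hy
      exact ⟨x, hle hx, hxy⟩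

theorem leaf {p : ℕ} {G : Type v} [Group G] (h : Hy p G) (hZ : Subgroup.center G = ⊥) (hn : Nontrivial G) :
    ∃ (E : Subgroup G) (a y : G), (E : Set G).Finite ∧ a ∉ E ∧ y ≠ 1 ∧
      ∀ g : G, g * y ≠ y * g → a ∈ Subgroup.closure ((E : Set G) ∪ {g}) := by
  classical
  obtain ⟨t, ht⟩ := exists_ne (1 : G)
  have hcyc : ∃ a : G, a ∉ Subgroup.closure ({t} : Set G) := by
    by_contra hcon
    push Not at hcon
    have hc : t ∈ Subgroup.center G := by
      rw [Subgroup.mem_center_iff]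
      intro g
      obtain ⟨n, hn⟩ := Subgroup.mem_closure_singleton.mp (hcon g)
      rw [← hn]
      exact ((Commute.refl t).zpow_left n)
    rw [hZ] at hc
    exact ht (Subgroup.mem_bot.mp hc)
  obtain ⟨a, ha⟩ := hcyc
  by_contra hcon
  push Not at hcon
  have hs : ∀ (E : Subgroup G) (y : G), (E : Set G).Finite → a ∉ E → y ≠ 1 →
      ∃ g : G, g * y ≠ y * g ∧ a ∉ Subgroup.closure ((E : Set G) ∪ {g}) := by
    intro E y hE haE hy
    exact hcon E a y hE haE hy
  have hB : ∀ E : {E : Subgroup G // (E : Set G).Finite ∧ a ∉ E},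
      ∃ E' : {E : Subgroup G // (E : Set G).Finite ∧ a ∉ E}, E.1 ≤ E'.1 ∧
        ∀ y ∈ E.1, y ≠ 1 → ∃ g ∈ E'.1, g * y ≠ y * g := by
    rintro ⟨E, hE, haE⟩
    obtain ⟨E', h1, h2, h3, h4⟩ := LeafB_step h a hs (hE.toFinset.filter (fun y => y ≠ 1))
      (fun y hy => (Finset.mem_filter.mp hy).2) E hE haE
    refine ⟨⟨E', h1, h2⟩, h3, ?_⟩
    intro y hy hy1
    refine h4 y (Finset.mem_filter.mpr ⟨?_, hy1⟩)
    exact hE.mem_toFinset.mpr hy
  choose f hf1 hf2 using hB
  have h0f : (Subgroup.closure ({t} : Set G) : Set G).Finite := by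
    have := h.lf {t}
    rwa [Finset.coe_singleton] at this
  let s : ℕ → {E : Subgroup G // (E : Set G).Finite ∧ a ∉ E} :=
    fun n => Nat.rec ⟨Subgroup.closure ({t} : Set G), h0f, ha⟩ (fun _ E => f E) n
  have hs1 : ∀ n, s (n + 1) = f (s n) := fun n => rfl
  have hmono : Monotone (fun n => (s n).1) := by
    refine monotone_nat_of_le_succ ?_
    intro n
    show (s n).1 ≤ (s (n + 1)).1
    rw [hs1]
    exact hf1 (s n)
  have hdir : Directed (· ≤ ·) (fun n => (s n).1) := hmono.directed_le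
  set K : Subgroup G := ⨆ n, (s n).1 with hK
  have hmem : ∀ x : G, x ∈ K ↔ ∃ n, x ∈ (s n).1 := by
    intro x
    rw [hK]
    exact Subgroup.mem_iSup_of_directed hdir
  have haK : a ∉ K := by
    intro hx
    obtain ⟨n, hn⟩ := (hmem a).mp hx
    exact (s n).2.2 hn
  have hKt : K ≠ ⊤ := by
    intro hKt
    exact haK (hKt ▸ Subgroup.mem_top a)
  have htK : t ∈ K := (hmem t).mpr ⟨0, Subgroup.subset_closure rfl⟩
  have hKb : (⊥ : Subgroup G) ≠ K := by
    intro hb
    rw [← hb] at htK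
    exact ht (Subgroup.mem_bot.mp htK)
  obtain ⟨y, hyK, hy1, hy⟩ := h.hyp K hKt ⊥ bot_le hKb (by
    intro n hn x _
    rw [Subgroup.mem_bot] at hn ⊢
    rw [hn, mul_one, mul_inv_cancel])
  obtain ⟨n, hn⟩ := (hmem y).mp hyK
  have hy1' : y ≠ 1 := fun hh => hy1 (Subgroup.mem_bot.mpr hh)
  obtain ⟨g, hg, hgy⟩ := hf2 (s n) y hn hy1'
  rw [← hs1] at hg
  have h5 := hy g ((hmem g).mpr ⟨n + 1, hg⟩)
  rw [Subgroup.mem_bot] at h5
  apply hgy
  have h6 : y * g = g * y := by
    have h7 : y * g * (g * y)⁻¹ = 1 := by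
      rw [mul_inv_rev, ← mul_assoc]
      exact h5
    exact mul_inv_eq_one.mp h7
  exact h6.symm

end AF430
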