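import Pool.Agent.Lib.MP_af430d_al.LeafB

/-!
# MP_af430d_al: the leaf with `y` in a given nontrivial normal subgroup
-/

namespace AF430

open Subgroup

universe v

/-- In a hypercentral subgroup `K` every nontrivial subgroup `K ∩ T`, `T` normal in `G`, contains a nontrivial element of the centre of `K`. -/
theorem Hyp.inter {G : Type v} [Group G] {K : Subgroup G} (hK : Hyp K) (T : Subgroup G) (hT : T.Normal)
    (t : G) (htK : t ∈ K) (htT : t ∈ T) (ht : t ≠ 1) : ∃ y ∈ K, y ∈ T ∧ y ≠ 1 ∧ ∀ x ∈ K, x * y = y * x := by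
  classical
  -- a maximal subgroup of `K` that is normalised by `K` and meets `T` trivially
  set P : Set (Subgroup G) := {N | N ≤ K ∧ (∀ n ∈ N, ∀ x ∈ K, x * n * x⁻¹ ∈ N) ∧ ∀ n ∈ N, n ∈ T → n = 1} with hP
  have hbot : (⊥ : Subgroup G) ∈ P := by
    refine ⟨bot_le, ?_, ?_⟩
    · intro n hn x _
      rw [Subgroup.mem_bot] at hn ⊢
      rw [hn, mul_one, mul_inv_cancel]
    · intro n hn _
      exact Subgroup.mem_bot.1 hn
  obtain ⟨N, -, hNmax⟩ := zorn_le_nonempty₀ P (by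
    intro c hc hchain N0 hN0
    have hne : c.Nonempty := ⟨N0, hN0⟩
    have hdir : DirectedOn (· ≤ ·) c := hchain.directedOn
    refine ⟨sSup c, ⟨?_, ?_, ?_⟩, fun z hz => le_sSup hz⟩
    · exact sSup_le fun z hz => (hc hz).1
    · intro n hn x hx
      obtain ⟨z, hz, hnz⟩ := (Subgroup.mem_sSup_of_directedOn hne hdir).1 hn
      exact (Subgroup.mem_sSup_of_directedOn hne hdir).2 ⟨z, hz, (hc hz).2.1 n hnz x hx⟩
    · intro n hn hnT
      obtain ⟨z, hz, hnz⟩ := (Subgroup.mem_sSup_of_directedOn hne hdir).1 hn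
      exact (hc hz).2.2 n hnz hnT) ⊥ hbot
  have hNP : N ∈ P := hNmax.prop
  have hNK : N ≠ K := by
    intro hcon
    exact ht (hNP.2.2 t (hcon ▸ htK) htT)
  obtain ⟨h, hhK, hhN, hh⟩ := hK N hNP.1 hNK hNP.2.1
  -- `N ⟨h⟩`
  set M : Subgroup G := N ⊔ Subgroup.zpowers h with hM
  have hcomm : ∀ m ∈ M, ∀ x ∈ K, m * x * m⁻¹ * x⁻¹ ∈ N := by
    intro m hm
    have hle : M ≤ K := sup_le hNP.1 (by rw [Subgroup.zpowers_le]; exact hhK)
    rw [hM, Subgroup.sup_eq_closure] at hm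
    induction hm using Subgroup.closure_induction with
    | mem z hz =>
      intro x hx
      rcases hz with hz | hz
      · have h1 : x * z⁻¹ * x⁻¹ ∈ N := hNP.2.1 _ (N.inv_mem hz) x hx
        have h2 : z * x * z⁻¹ * x⁻¹ = z * (x * z⁻¹ * x⁻¹) := by group
        rw [h2]
        exact N.mul_mem hz h1
      · obtain ⟨k, rfl⟩ := Subgroup.mem_zpowers_iff.1 hz
        have hpow : ∀ n : ℕ, ∀ x ∈ K, h ^ n * x * (h ^ n)⁻¹ * x⁻¹ ∈ N := by
          intro n
          induction n with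
          | zero => intro x _; simp [N.one_mem]
          | succ n ih =>
            intro x hx
            have h1 := ih (h * x * h⁻¹) (K.mul_mem (K.mul_mem hhK hx) (K.inv_mem hhK))
            have h2 := hh x hx
            have h3 : h ^ (n + 1) * x * (h ^ (n + 1))⁻¹ * x⁻¹ =
                (h ^ n * (h * x * h⁻¹) * (h ^ n)⁻¹ * (h * x * h⁻¹)⁻¹) * (h * x * h⁻¹ * x⁻¹) := by
              rw [pow_succ]; group
            rw [h3]
            exact N.mul_mem h1 h2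
        obtain ⟨n, rfl | rfl⟩ := k.eq_nat_or_neg
        · rw [zpow_natCast]; exact hpow n x hx
        · rw [zpow_neg, zpow_natCast]
          have hhn : h ^ n ∈ K := K.pow_mem hhK n
          have h1 := hpow n ((h ^ n)⁻¹ * x⁻¹ * (h ^ n)) (K.mul_mem (K.mul_mem (K.inv_mem hhn) (K.inv_mem hx)) hhn)
          have h2 : (h ^ n)⁻¹ * x * ((h ^ n)⁻¹)⁻¹ * x⁻¹ =
              x * (h ^ n * ((h ^ n)⁻¹ * x⁻¹ * (h ^ n)) * (h ^ n)⁻¹ * ((h ^ n)⁻¹ * x⁻¹ * (h ^ n))⁻¹) * x⁻¹ := by group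
          rw [h2]
          exact hNP.2.1 _ h1 x hx
    | one => intro x _; simp [N.one_mem]
    | mul u w hu hw ihu ihw =>
      intro x hx
      have huM : u ∈ K := hle (by rw [hM, Subgroup.sup_eq_closure]; exact hu)
      have h1 := ihw x hx
      have h2 := ihu x hx
      have h3 : u * w * x * (u * w)⁻¹ * x⁻¹ = (u * (w * x * w⁻¹ * x⁻¹) * u⁻¹) * (u * x * u⁻¹ * x⁻¹) := by group
      rw [h3]
      exact N.mul_mem (hNP.2.1 _ h1 u huM) h2
    | inv u hu ihu =>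
      intro x hx
      have huM : u ∈ K := hle (by rw [hM, Subgroup.sup_eq_closure]; exact hu)
      have h1 := ihu (u⁻¹ * x⁻¹ * u) (K.mul_mem (K.mul_mem (K.inv_mem huM) (K.inv_mem hx)) huM)
      have h3 : u⁻¹ * x * u⁻¹⁻¹ * x⁻¹ = x * (u * (u⁻¹ * x⁻¹ * u) * u⁻¹ * (u⁻¹ * x⁻¹ * u)⁻¹) * x⁻¹ := by group
      rw [h3]
      exact hNP.2.1 _ h1 x hx
  have hMK : M ≤ K := sup_le hNP.1 (by rw [Subgroup.zpowers_le]; exact hhK)
  have hhM : h ∈ M := Subgroup.mem_sup_right (Subgroup.mem_zpowers h)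
  -- `M` meets `T` nontrivially
  have hMT : ∃ m ∈ M, m ∈ T ∧ m ≠ 1 := by
    by_contra hcon
    push Not at hcon
    have hMP : M ∈ P := by
      refine ⟨hMK, ?_, hcon⟩
      intro m hm x hx
      have h1 := hcomm m hm x⁻¹ (K.inv_mem hx)
      have h2 : x * m * x⁻¹ = m * (m⁻¹ * (x * (m * x⁻¹ * m⁻¹ * x⁻¹⁻¹) * x⁻¹) * m) := by group
      have h3 : m⁻¹ * (x * (m * x⁻¹ * m⁻¹ * x⁻¹⁻¹) * x⁻¹) * m ∈ N := by
        have h4 := hNP.2.1 _ (hNP.2.1 _ h1 x hx) m⁻¹ (K.inv_mem (hMK hm))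
        have h5 : m⁻¹ * (x * (m * x⁻¹ * m⁻¹ * x⁻¹⁻¹) * x⁻¹) * m⁻¹⁻¹ =
            m⁻¹ * (x * (m * x⁻¹ * m⁻¹ * x⁻¹⁻¹) * x⁻¹) * m := by rw [inv_inv m]
        rwa [h5] at h4
      rw [h2]
      exact M.mul_mem hm (Subgroup.mem_sup_left h3)
    exact hhN (hNmax.le_of_ge hMP le_sup_left hhM)
  obtain ⟨m, hmM, hmT, hm1⟩ := hMT
  refine ⟨m, hMK hmM, hmT, hm1, ?_⟩
  intro x hx
  have h1 : m * x * m⁻¹ * x⁻¹ ∈ N := hcomm m hmM x hx
  have h2 : m * x * m⁻¹ * x⁻¹ ∈ T := by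
    have h3 : m * x * m⁻¹ * x⁻¹ = m * (x * m⁻¹ * x⁻¹) := by group
    rw [h3]
    exact T.mul_mem hmT (hT.conj_mem _ (T.inv_mem hmT) x)
  have h3 := hNP.2.2 _ h1 h2
  have h4 : m * x * m⁻¹ * x⁻¹ * x * m = m * x := by group
  rw [h3, one_mul] at h4
  exact h4

theorem LeafT_step {p : ℕ} {G : Type v} [Group G] (h : Hy p G) (T : Subgroup G) (a : G)
    (hs : ∀ (E : Subgroup G) (y : G), (E : Set G).Finite → a ∉ E → y ∈ T → y ≠ 1 →
      ∃ g : G, g * y ≠ y * g ∧ a ∉ Subgroup.closure ((E : Set G) ∪ {g})) (Y : Finset G) :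
    (∀ y ∈ Y, y ∈ T ∧ y ≠ 1) → ∀ E : Subgroup G, (E : Set G).Finite → a ∉ E →
      ∃ E' : Subgroup G, (E' : Set G).Finite ∧ a ∉ E' ∧ E ≤ E' ∧ ∀ y ∈ Y, ∃ g ∈ E', g * y ≠ y * g := by
  classical
  induction Y using Finset.induction_on with
  | empty =>
    intro _ E hE ha
    exact ⟨E, hE, ha, le_rfl, by simp⟩
  | insert z Y hz ih =>
    intro hY E hE ha
    obtain ⟨E1, h1f, h1a, h1E, h1Y⟩ := ih (fun y hy => hY y (Finset.mem_insert_of_mem hy)) E hE ha
    obtain ⟨hzT, hz1⟩ := hY z (Finset.mem_insert_self z Y)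
    obtain ⟨g, hg, hga⟩ := hs E1 z h1f h1a hzT hz1
    have hfin : (Subgroup.closure ((E1 : Set G) ∪ {g}) : Set G).Finite := by
      have h2 := h.lf (insert g h1f.toFinset)
      have h3 : ((insert g h1f.toFinset : Finset G) : Set G) = (E1 : Set G) ∪ {g} := by
        rw [Finset.coe_insert, Set.Finite.coe_toFinset, Set.union_singleton]
      rwa [h3] at h2
    have hle : E1 ≤ Subgroup.closure ((E1 : Set G) ∪ {g}) := by
      intro x hx
      exact Subgroup.subset_closure (Or.inl hx)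
    refine ⟨Subgroup.closure ((E1 : Set G) ∪ {g}), hfin, hga, h1E.trans hle, ?_⟩
    intro y hy
    rcases Finset.mem_insert.mp hy with rfl | hy
    · exact ⟨g, Subgroup.subset_closure (Or.inr rfl), hg⟩
    · obtain ⟨x, hx, hxy⟩ := h1Y y hy
      exact ⟨x, hle hx, hxy⟩

/-- The leaf with `y` in the nontrivial normal subgroup `T`. -/
theorem leafT {p : ℕ} {G : Type v} [Group G] (h : Hy p G) (T : Subgroup G) (hT : T.Normal) (hT1 : T ≠ ⊥) :
    ∃ (E : Subgroup G) (a y : G), (E : Set G).Finite ∧ a ∉ E ∧ y ∈ T ∧ y ≠ 1 ∧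
      ∀ g : G, g * y ≠ y * g → a ∈ Subgroup.closure ((E : Set G) ∪ {g}) := by
  classical
  obtain ⟨t, htT, ht⟩ : ∃ t ∈ T, t ≠ (1 : G) := by
    by_contra hcon
    push Not at hcon
    exact hT1 ((Subgroup.eq_bot_iff_forall T).2 hcon)
  -- `G` is not cyclic
  have hcyc : ∃ a : G, a ∉ Subgroup.closure ({t} : Set G) := by
    by_contra hcon
    push Not at hcon
    have hcom : ∀ x y : G, x * y = y * x := by
      intro x y
      obtain ⟨n, hn⟩ := Subgroup.mem_closure_singleton.mp (hcon x)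
      obtain ⟨m, hm⟩ := Subgroup.mem_closure_singleton.mp (hcon y)
      rw [← hn, ← hm]
      exact ((Commute.refl t).zpow_zpow n m)
    have h1 : commutator G = ⊥ := by
      rw [commutator_def, Subgroup.commutator_eq_bot_iff_le_centralizer]
      intro x _
      rw [Subgroup.mem_centralizer_iff]
      intro y _
      exact hcom y x
    rw [h.perf] at h1
    have h2 : t ∈ (⊤ : Subgroup G) := Subgroup.mem_top t
    rw [h1] at h2
    exact ht (Subgroup.mem_bot.1 h2)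
  obtain ⟨a, ha⟩ := hcyc
  by_contra hcon
  push Not at hcon
  have hs : ∀ (E : Subgroup G) (y : G), (E : Set G).Finite → a ∉ E → y ∈ T → y ≠ 1 →
      ∃ g : G, g * y ≠ y * g ∧ a ∉ Subgroup.closure ((E : Set G) ∪ {g}) := by
    intro E y hE haE hyT hy
    exact hcon E a y hE haE hyT hy
  have hB : ∀ E : {E : Subgroup G // (E : Set G).Finite ∧ a ∉ E},
      ∃ E' : {E : Subgroup G // (E : Set G).Finite ∧ a ∉ E}, E.1 ≤ E'.1 ∧
        ∀ y ∈ E.1, y ∈ T → y ≠ 1 → ∃ g ∈ E'.1, g * y ≠ y * g := by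
    rintro ⟨E, hE, haE⟩
    obtain ⟨E', h1, h2, h3, h4⟩ := LeafT_step h T a hs (hE.toFinset.filter (fun y => y ∈ T ∧ y ≠ 1))
      (fun y hy => (Finset.mem_filter.mp hy).2) E hE haE
    refine ⟨⟨E', h1, h2⟩, h3, ?_⟩
    intro y hy hyT hy1
    refine h4 y (Finset.mem_filter.mpr ⟨?_, hyT, hy1⟩)
    exact hE.mem_toFinset.mpr hy
  choose f hf1 hf2 using hB
  have h0f : (Subgroup.closure ({t} : Set G) : Set G).Finite := by
    have := h.lf {t}
    rwa [Finset.coe_singleton] at this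
  let s : ℕ → {E : Subgroup G // (E : Set G).Finite ∧ a ∉ E} :=
    fun n => Nat.rec ⟨Subgroup.closure ({t} : Set G), h0f, ha⟩ (fun _ E => f E) n
  have hs1 : ∀ n, s (n + 1) = f (s n) := fun n => rfl
  have hmono : Monotone (fun n => (s n).1) := by
    refine monotone_nat_of_le_succ ?_
    intro n
    show (s n).1 ≤ (s (n + 1)).1
    rw [hs1]
    exact hf1 (s n)
  have hdir : Directed (· ≤ ·) (fun n => (s n).1) := hmono.directed_le
  set K : Subgroup G := ⨆ n, (s n).1 with hK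
  have hmem : ∀ x : G, x ∈ K ↔ ∃ n, x ∈ (s n).1 := by
    intro x
    rw [hK]
    exact Subgroup.mem_iSup_of_directed hdir
  have haK : a ∉ K := by
    intro hx
    obtain ⟨n, hn⟩ := (hmem a).mp hx
    exact (s n).2.2 hn
  have hKt : K ≠ ⊤ := by
    intro hKt
    exact haK (hKt ▸ Subgroup.mem_top a)
  have htK : t ∈ K := (hmem t).mpr ⟨0, Subgroup.subset_closure rfl⟩
  obtain ⟨y, hyK, hyT, hy1, hy⟩ := (show Hyp K from h.hyp K hKt).inter T hT t htK htT ht
  obtain ⟨n, hn⟩ := (hmem y).mp hyK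
  obtain ⟨g, hg, hgy⟩ := hf2 (s n) y hn hyT hy1
  rw [← hs1] at hg
  exact hgy (hy g ((hmem g).mpr ⟨n + 1, hg⟩))

end AF430
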