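import Pool.Agent.Lib.MP_af430d_al.Defs

/-!
# MP_af430d_al job LongB: long orbits

* `finite_above`: a subgroup `M ≥ C` is determined by its image in `Γ ⧸ C` (left cosets), a set with `C.index` elements: `M ↦ {q : Γ ⧸ C | ∃ m ∈ M, (m : Γ ⧸ C) = q}` is injective on `{M | C ≤ M}`
  (`x ∈ M ↔ (x : Γ ⧸ C) ∈ image`, because `m⁻¹ x ∈ C ≤ M` gives `x ∈ M`); and `Set.ncard (powerset) = 2 ^ C.index` (`Nat.card (Set α) = 2 ^ Nat.card α` for finite `α`; e.g. `Set.ncard_le_ncard`, `Fintype.card_set`).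
* `exists_long`: for one subgroup `K` of `G` with `K.index = 0` and `m : ℕ` there is a finite `s : Finset G` such that for all subgroups `N'` with `s ⊆ N'`: `K.relIndex N' = 0 ∨ m < K.relIndex N'`:
  `G ⧸ K` is infinite, choose `m + 1` elements `g_0, …, g_m` of `G` in distinct left cosets of `K` (`Infinite.exists_subset_card_eq`, `Quotient.out`); if they all lie in `N'`, their classes in
  `N' ⧸ K.subgroupOf N'` are distinct, so `K.relIndex N' = Nat.card (N' ⧸ K.subgroupOf N')` is `0` or `≥ m + 1`.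
* `long_orbits`: apply `exists_long` with `K = St N M` for each of the finitely many `M ≥ C`, `M ≠ ⊤` (`finite_above`), take the union of the finite sets, and `hdir`. The hypothesis `hst` is `St_index` of job StabB.
-/

namespace AF430

open Subgroup

universe v

variable {G : Type v} [Group G]

theorem finite_above {Γ : Type v} [Group Γ] (C : Subgroup Γ) (hC : C.index ≠ 0) :
    {M : Subgroup Γ | C ≤ M}.Finite ∧ {M : Subgroup Γ | C ≤ M}.ncard ≤ 2 ^ C.index := by
  classical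
  have hFI : C.FiniteIndex := ⟨hC⟩
  have hfin : Finite (Γ ⧸ C) := Subgroup.finite_quotient_of_finiteIndex
  obtain ⟨F, hF⟩ : ∃ F : Subgroup Γ → Set (Γ ⧸ C),
      F = fun M => {q | ∃ m : Γ, m ∈ M ∧ (m : Γ ⧸ C) = q} := ⟨_, rfl⟩
  have hmem : ∀ M : Subgroup Γ, C ≤ M → ∀ x : Γ, (x : Γ ⧸ C) ∈ F M ↔ x ∈ M := by
    intro M hM x
    rw [hF]
    constructor
    · rintro ⟨m, hm, hmx⟩
      have h1 : m⁻¹ * x ∈ C := QuotientGroup.eq.1 hmx
      have h2 := M.mul_mem hm (hM h1)
      rwa [mul_inv_cancel_left] at h2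
    · intro hx
      exact ⟨x, hx, rfl⟩
  have hinj : Set.InjOn F {M : Subgroup Γ | C ≤ M} := by
    intro M hM M' hM' h
    ext x
    rw [← hmem M hM x, h, hmem M' hM' x]
  have hfs : (Set.univ : Set (Set (Γ ⧸ C))).Finite := Set.finite_univ
  constructor
  · exact Set.Finite.of_injOn (fun _ _ => Set.mem_univ _) hinj hfs
  · refine le_trans (Set.ncard_le_ncard_of_injOn F (fun _ _ => Set.mem_univ _) hinj hfs) ?_
    have hft : Fintype (Γ ⧸ C) := Fintype.ofFinite _
    rw [Set.ncard_univ, Nat.card_eq_fintype_card, Fintype.card_set, Subgroup.index,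
      Nat.card_eq_fintype_card]

theorem exists_long (K : Subgroup G) (hK : K.index = 0) (m : ℕ) : ∃ s : Finset G,
    ∀ N' : Subgroup G, (s : Set G) ⊆ N' → K.relIndex N' = 0 ∨ m < K.relIndex N' := by
  classical
  have hinf : Infinite (G ⧸ K) := by
    rcases Nat.card_eq_zero.1 hK with h | h
    · exact absurd (⟨((1 : G) : G ⧸ K)⟩ : Nonempty (G ⧸ K)) (not_nonempty_iff.2 h)
    · exact h
  obtain ⟨t, ht⟩ := Infinite.exists_subset_card_eq (G ⧸ K) (m + 1)
  refine ⟨t.image Quotient.out, ?_⟩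
  intro N' hN'
  by_cases h0 : K.relIndex N' = 0
  · exact Or.inl h0
  · right
    have hmem : ∀ q ∈ t, Quotient.out q ∈ N' := by
      intro q hq
      apply hN'
      rw [Finset.coe_image]
      exact ⟨q, hq, rfl⟩
    have hFI : (K.subgroupOf N').FiniteIndex := ⟨h0⟩
    have hfin : Finite (N' ⧸ K.subgroupOf N') := Subgroup.finite_quotient_of_finiteIndex
    obtain ⟨f, hf⟩ : ∃ f : t → N' ⧸ K.subgroupOf N', f = fun q =>
      ((⟨Quotient.out q.1, hmem q.1 q.2⟩ : N') : N' ⧸ K.subgroupOf N') := ⟨_, rfl⟩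
    have hinj : Function.Injective f := by
      intro q q' h
      rw [hf] at h
      have h1 := QuotientGroup.eq.1 h
      rw [Subgroup.mem_subgroupOf] at h1
      have h2 : (Quotient.out q.1)⁻¹ * Quotient.out q'.1 ∈ K := h1
      have h3 : ((Quotient.out q.1 : G) : G ⧸ K) = ((Quotient.out q'.1 : G) : G ⧸ K) :=
        QuotientGroup.eq.2 h2
      rw [QuotientGroup.out_eq', QuotientGroup.out_eq'] at h3
      exact Subtype.ext h3
    have h4 := Nat.card_le_card_of_injective f hinj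
    have h5 : Nat.card t = m + 1 := by
      rw [Nat.card_eq_fintype_card, Fintype.card_coe, ht]
    rw [h5] at h4
    exact h4

theorem long_orbits (𝒩 : Set (Subgroup G))
    (hdir : ∀ N ∈ 𝒩, ∀ s : Finset G, ∃ N' ∈ 𝒩, N ≤ N' ∧ (s : Set G) ⊆ N')
    (N : Subgroup G) [N.Normal] (hN : N ∈ 𝒩) (C : Subgroup N) (hC : C.index ≠ 0)
    (hst : ∀ M : Subgroup N, C ≤ M → M ≠ ⊤ → (St N M).index = 0) (m : ℕ) :
    ∃ N' ∈ 𝒩, N ≤ N' ∧ ∀ M : Subgroup N, C ≤ M → M ≠ ⊤ →
      (St N M).relIndex N' = 0 ∨ m < (St N M).relIndex N' := by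
  classical
  have hfa := (finite_above C hC).1
  have hch : ∀ M : Subgroup N, ∃ s : Finset G, C ≤ M → M ≠ ⊤ → ∀ N' : Subgroup G,
      (s : Set G) ⊆ N' → (St N M).relIndex N' = 0 ∨ m < (St N M).relIndex N' := by
    intro M
    by_cases h : C ≤ M ∧ M ≠ ⊤
    · obtain ⟨s, hs⟩ := exists_long (St N M) (hst M h.1 h.2) m
      exact ⟨s, fun _ _ => hs⟩
    · exact ⟨∅, fun h1 h2 => absurd ⟨h1, h2⟩ h⟩
  choose s hs using hch
  obtain ⟨N', hN', hle, hsub⟩ := hdir N hN (hfa.toFinset.biUnion s)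
  refine ⟨N', hN', hle, ?_⟩
  intro M hM hMt
  apply hs M hM hMt N'
  intro x hx
  apply hsub
  rw [Finset.mem_coe, Finset.mem_biUnion]
  exact ⟨M, hfa.mem_toFinset.2 hM, hx⟩

end AF430
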