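import Pool.Agent.Lib.MP_af430d_al.Defs

/-!
# MP_af430d_al job QuotB: the hypotheses pass to quotients; no proper subgroups of finite index

* `Hy.of_surj`. `pgp`: `IsPGroup.of_surjective`. `lf`: choose preimages of the elements of `s` (`Function.surjInv`), `closure s = map f (closure s')`, image of a finite set. `perf`: `Subgroup.map_commutator`,
  `Subgroup.map_top_of_surjective`. `hyp`: apply the hypothesis on `G` to `H' = H.comap f ≠ ⊤` and `N' = N.comap f`, get `h ∈ H'`, use `f h` (surjectivity). `fit`: `N.map f`, normal (`Subgroup.Normal.map`), nilpotent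
  (`Group.nilpotent_of_surjective` for `N →* N.map f`, `(f.subgroupMap N)` surjective).
* `no_fin`: let `K = M.normalCore`, of finite index (`Subgroup.finiteIndex_normalCore` or similar). `G ⧸ K` is a finite `p`-group, hence nilpotent (`IsPGroup.isNilpotent`), and perfect (`Hy.of_surj`); a nontrivial perfect group
  is not nilpotent (`Group.IsPerfect.not_isNilpotent`), so `G ⧸ K` is trivial, `K = ⊤ ≤ M`.
* `center_quot`: `Group.IsPerfect.center_quotient_center_eq_bot` (Grün), with `Group.isPerfect_def`; `G ⧸ center G` is nontrivial, otherwise `G = center G` is abelian and perfect, hence trivial.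
-/

namespace AF430

open Subgroup

universe v w

theorem QuotB_lift {G : Type v} {Q : Type w} [Group G] [Group Q] (f : G →* Q)
    (hf : Function.Surjective f) (s : Finset Q) : ∃ t : Finset G, f '' (t : Set G) = (s : Set Q) := by
  classical
  refine ⟨s.image (Function.surjInv hf), ?_⟩
  ext x
  simp only [Finset.coe_image, Set.mem_image, Finset.mem_coe, exists_exists_and_eq_and]
  constructor
  · rintro ⟨y, hy, rfl⟩
    rw [Function.surjInv_eq hf y]
    exact hy
  · intro hx
    exact ⟨x, hx, Function.surjInv_eq hf x⟩

theorem Hy.of_surj {p : ℕ} {G : Type v} {Q : Type w} [Group G] [Group Q] (f : G →* Q)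
    (hf : Function.Surjective f) (h : Hy p G) : Hy p Q := by
  refine ⟨h.pgp.of_surjective f hf, ?_, ?_, ?_, ?_⟩
  · intro s
    obtain ⟨t, ht⟩ := QuotB_lift f hf s
    have e : (closure (t : Set G)).map f = closure (s : Set Q) := by
      rw [MonoidHom.map_closure, ht]
    rw [← e, Subgroup.coe_map]
    exact (h.lf t).image f
  · have e : (commutator G).map f = commutator Q := by
      rw [_root_.commutator_def, _root_.commutator_def, Subgroup.map_commutator,
        Subgroup.map_top_of_surjective f hf]
    rw [← e, h.perf, Subgroup.map_top_of_surjective f hf]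
  · intro H hH N hN hne hnorm
    have hH' : H.comap f ≠ ⊤ := by
      intro hcon
      apply hH
      rw [← Subgroup.map_comap_eq_self_of_surjective hf H, hcon,
        Subgroup.map_top_of_surjective f hf]
    obtain ⟨a, ha, ha2, ha3⟩ := h.hyp (H.comap f) hH' (N.comap f) (Subgroup.comap_mono hN)
      (by
        intro hcon
        apply hne
        rw [← Subgroup.map_comap_eq_self_of_surjective hf H, ← hcon,
          Subgroup.map_comap_eq_self_of_surjective hf N])
      (by
        intro n hn x hx
        rw [Subgroup.mem_comap] at hn hx ⊢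
        rw [map_mul, map_mul, map_inv]
        exact hnorm _ hn _ hx)
    refine ⟨f a, ha, ha2, ?_⟩
    intro x hx
    obtain ⟨y, rfl⟩ := hf x
    have := ha3 y hx
    rw [Subgroup.mem_comap, map_mul, map_mul, map_mul, map_inv, map_inv] at this
    exact this
  · intro s
    obtain ⟨t, ht⟩ := QuotB_lift f hf s
    obtain ⟨N, hN1, hN2, hN3⟩ := h.fit t
    refine ⟨N.map f, hN1.map f hf, ?_, ?_⟩
    · exact Group.nilpotent_of_surjective (f.subgroupMap N) (f.subgroupMap_surjective N)
    · rw [← ht, Subgroup.coe_map]
      exact Set.image_mono hN3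

theorem no_fin {p : ℕ} (hp : p.Prime) {G : Type v} [Group G] (h : Hy p G) (M : Subgroup G)
    (hM : M.index ≠ 0) : M = ⊤ := by
  have : Fact p.Prime := ⟨hp⟩
  have : M.FiniteIndex := ⟨hM⟩
  by_contra hne
  have hK : M.normalCore ≠ ⊤ := by
    intro hcon
    apply hne
    rw [eq_top_iff, ← hcon]
    exact M.normalCore_le
  have hq : Hy p (G ⧸ M.normalCore) :=
    Hy.of_surj (QuotientGroup.mk' M.normalCore) (QuotientGroup.mk'_surjective _) h
  have : Finite (G ⧸ M.normalCore) := Subgroup.finite_quotient_of_finiteIndex
  have : Group.IsNilpotent (G ⧸ M.normalCore) := hq.pgp.isNilpotent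
  have : Group.IsPerfect (G ⧸ M.normalCore) := Group.isPerfect_def.2 hq.perf
  have : Nontrivial (G ⧸ M.normalCore) := by
    rw [← not_subsingleton_iff_nontrivial]
    intro hs
    apply hK
    exact QuotientGroup.subgroup_eq_top_of_subsingleton _ hs
  exact Group.IsPerfect.not_isNilpotent (G := G ⧸ M.normalCore) inferInstance

theorem center_quot {p : ℕ} {G : Type v} [Group G] (h : Hy p G) (hn : Nontrivial G) :
    Subgroup.center (G ⧸ Subgroup.center G) = ⊥ ∧ Nontrivial (G ⧸ Subgroup.center G) := by
  have : Group.IsPerfect G := Group.isPerfect_def.2 h.perf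
  refine ⟨Group.IsPerfect.center_quotient_center_eq_bot G, ?_⟩
  rw [← not_subsingleton_iff_nontrivial]
  intro hs
  have hc : Subgroup.center G = ⊤ := QuotientGroup.subgroup_eq_top_of_subsingleton _ hs
  have h1 : commutator G = ⊥ := by
    rw [_root_.commutator_def, Subgroup.commutator_eq_bot_iff_le_centralizer]
    intro x _
    rw [Subgroup.mem_centralizer_iff]
    intro y _
    have hx : x ∈ Subgroup.center G := hc ▸ Subgroup.mem_top x
    exact (Subgroup.mem_center_iff.1 hx y)
  rw [h.perf] at h1
  exact (bot_ne_top (α := Subgroup G)) h1.symm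

end AF430
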