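import Pool.Agent.Lib.MP_af430d_al.Defs
import Pool.Agent.Lib.MP_af430d_al.ActB

/-!
# MP_af430d_al job StabB: elements of `C_{N'}` act trivially above `C_N`; stabilisers have infinite index

* `act_CN`. `c ∈ CN N' H = (H.subgroupOf N').normalCore` means: all `N'`-conjugates of `c` lie in `H` (`Subgroup.normalCore` membership is `∀ b : N', b * c * b⁻¹ ∈ H.subgroupOf N'`).
  Let `m ∈ M ≤ N ≤ N'`. The commutator `k = c m c⁻¹ m⁻¹` is in `N` (normality of `N`), and `k = c * (m c⁻¹ m⁻¹)` is in `CN N' H` (a normal subgroup of `N'`), so all its `N'`-conjugates, in particular its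
  `N`-conjugates, are in `H`, so `k ∈ CN N H ≤ M` (as an element of `N`). So `c m c⁻¹ = k m ∈ M`, i.e. `act N c M ≤ M` for all `c` in `CN N' H`; apply this also to `c⁻¹` and use `act_mono`, `act_act_inv` for equality.
* `St_index`. Suppose `(St N M).index ≠ 0`. Then `St N M = ⊤` by `hfin`, so `act N g M = M` for all `g : G`, i.e. `K := M.map N.subtype` is normal in `G` (and `K ≤ N`), of finite index in `N`
  (`K.relIndex N = M.index ≠ 0`). In `Q := G ⧸ K`, the image `N̄ = N.map (mk' K)` is a finite normal subgroup; the centralizer of `N̄` in `Q` has finite index (kernel of `Q →* MulAut N̄`, a finite group;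
  or: intersection of the centralizers of finitely many elements, each with finite conjugacy class), so its preimage in `G` has finite index and is `⊤` by `hfin`. So `⁅N, ⊤⁆ ≤ K`, hence `N ≤ K`, `M = ⊤`, contradiction.
  Without quotient groups: for `n : N` the map `g ↦ (g n g⁻¹) M ∈ N ⧸ M` has finite range and its fibres are left cosets of the subgroup `S_n = {g | n⁻¹ * g n g⁻¹ ∈ M}` (a subgroup because `M` is `G`-invariant;
  note: `M` is normal in `N` as `N ≤ G`), so `S_n` has finite index, `S_n = ⊤` and `⁅n, g⁆ ∈ M` for all `g`.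
You may import Pool.Agent.Lib.MP_af430d_al.ActB (basic lemmas on `act`).
-/

namespace AF430

open Subgroup

universe v

variable {G : Type v} [Group G]

theorem mem_CN (N : Subgroup G) [N.Normal] (H : Subgroup G) (c : N) :
    c ∈ CN N H ↔ ∀ b : N, (b : G) * c * (b : G)⁻¹ ∈ H := Iff.rfl

theorem StabB_le (N N' : Subgroup G) [N.Normal] [N'.Normal] (H : Subgroup G) (hle : N ≤ N') (c : N')
    (hc : c ∈ CN N' H) (M : Subgroup N) (hM : CN N H ≤ M) : act N (c : G) M ≤ M := by
  intro x hx
  obtain ⟨m, hm, rfl⟩ := Subgroup.mem_map.1 hx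
  show MulAut.conjNormal (c : G) m ∈ M
  obtain ⟨k, hk⟩ : ∃ k : N, k = MulAut.conjNormal (c : G) m * m⁻¹ := ⟨_, rfl⟩
  have hcn : (CN N' H).Normal := Subgroup.normalCore_normal _
  have hkM : k ∈ M := by
    apply hM
    rw [mem_CN]
    intro b
    obtain ⟨m', hm'⟩ : ∃ m' : N', m' = ⟨(m : G), hle m.2⟩ := ⟨_, rfl⟩
    have h1 : m' * c⁻¹ * m'⁻¹ ∈ CN N' H := hcn.conj_mem _ ((CN N' H).inv_mem hc) m'
    have h2 : c * (m' * c⁻¹ * m'⁻¹) ∈ CN N' H := (CN N' H).mul_mem hc h1
    have h3 := (mem_CN N' H _).1 h2 ⟨(b : G), hle b.2⟩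
    have e : (k : G) = ((c * (m' * c⁻¹ * m'⁻¹) : N') : G) := by
      rw [hk, hm']
      push_cast
      rw [MulAut.conjNormal_apply]
      group
    rw [e]
    exact h3
  have h4 := M.mul_mem hkM hm
  rw [hk, inv_mul_cancel_right] at h4
  exact h4

theorem act_CN (N N' : Subgroup G) [N.Normal] [N'.Normal] (H : Subgroup G) (hle : N ≤ N') (c : N')
    (hc : c ∈ CN N' H) (M : Subgroup N) (hM : CN N H ≤ M) : act N (c : G) M = M := by
  apply le_antisymm (StabB_le N N' H hle c hc M hM)
  have h1 := StabB_le N N' H hle c⁻¹ ((CN N' H).inv_mem hc) M hM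
  have h2 := act_mono N (c : G) h1
  rw [Subgroup.coe_inv, act_act_inv] at h2
  exact h2

/-- the subgroup of the elements moving `n` inside its coset -/
def StabB_S (N : Subgroup G) [N.Normal] (M : Subgroup N) (h : ∀ g, act N g M = M) (n : N) :
    Subgroup G where
  carrier := {g | n⁻¹ * MulAut.conjNormal g n ∈ M}
  one_mem' := by
    show n⁻¹ * MulAut.conjNormal (1 : G) n ∈ M
    rw [map_one, MulAut.one_apply, inv_mul_cancel]
    exact M.one_mem
  mul_mem' := by
    intro a b ha hb
    have ha' : n⁻¹ * MulAut.conjNormal a n ∈ M := ha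
    have hb' : n⁻¹ * MulAut.conjNormal b n ∈ M := hb
    show n⁻¹ * MulAut.conjNormal (a * b) n ∈ M
    have h1 : MulAut.conjNormal a (n⁻¹ * MulAut.conjNormal b n) ∈ M := by
      have h2 : MulAut.conjNormal a (n⁻¹ * MulAut.conjNormal b n) ∈ act N a M :=
        Subgroup.mem_map_of_mem _ hb'
      rwa [h a] at h2
    have e : n⁻¹ * MulAut.conjNormal (a * b) n
        = (n⁻¹ * MulAut.conjNormal a n) * MulAut.conjNormal a (n⁻¹ * MulAut.conjNormal b n) := by
      rw [map_mul, MulAut.mul_apply, map_mul, map_inv]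
      group
    rw [e]
    exact M.mul_mem ha' h1
  inv_mem' := by
    intro a ha
    have ha' : n⁻¹ * MulAut.conjNormal a n ∈ M := ha
    show n⁻¹ * MulAut.conjNormal a⁻¹ n ∈ M
    have h1 : MulAut.conjNormal a⁻¹ (n⁻¹ * MulAut.conjNormal a n)⁻¹ ∈ M := by
      have h2 : MulAut.conjNormal a⁻¹ (n⁻¹ * MulAut.conjNormal a n)⁻¹ ∈ act N a⁻¹ M :=
        Subgroup.mem_map_of_mem _ (M.inv_mem ha')
      rwa [h a⁻¹] at h2
    have e : n⁻¹ * MulAut.conjNormal a⁻¹ n
        = MulAut.conjNormal a⁻¹ (n⁻¹ * MulAut.conjNormal a n)⁻¹ := by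
      rw [mul_inv_rev, map_mul, map_inv (MulAut.conjNormal a⁻¹) (MulAut.conjNormal a n),
        ActB_apply_inv, inv_inv]
    rw [e]
    exact h1

theorem StabB_mem (N : Subgroup G) [N.Normal] (M : Subgroup N) (h : ∀ g, act N g M = M) (n : N)
    (g : G) : g ∈ StabB_S N M h n ↔ n⁻¹ * MulAut.conjNormal g n ∈ M := Iff.rfl

theorem St_index (hfin : ∀ M : Subgroup G, M.index ≠ 0 → M = ⊤) (N : Subgroup G) [N.Normal]
    (hcom : N ≤ ⁅N, (⊤ : Subgroup G)⁆) (M : Subgroup N) (hM : M.index ≠ 0) (hne : M ≠ ⊤) :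
    (St N M).index = 0 := by
  by_contra hcon
  have hSt := hfin _ hcon
  have h : ∀ g, act N g M = M := by
    intro g
    have : g ∈ St N M := hSt ▸ Subgroup.mem_top g
    exact this
  have hFI : M.FiniteIndex := ⟨hM⟩
  have hq : Finite (N ⧸ M) := Subgroup.finite_quotient_of_finiteIndex
  have hS : ∀ n : N, StabB_S N M h n = ⊤ := by
    intro n
    apply hfin
    obtain ⟨f, hf⟩ : ∃ f : G ⧸ StabB_S N M h n → N ⧸ M, f = fun q =>
      ((MulAut.conjNormal (Quotient.out q) n : N) : N ⧸ M) := ⟨_, rfl⟩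
    have hinj : Function.Injective f := by
      intro q q' hqq
      rw [hf] at hqq
      have h1 := QuotientGroup.eq.1 hqq
      have h2 : (Quotient.out q)⁻¹ * Quotient.out q' ∈ StabB_S N M h n := by
        rw [StabB_mem]
        have h3 : MulAut.conjNormal (Quotient.out q)⁻¹ ((MulAut.conjNormal (Quotient.out q) n)⁻¹
            * MulAut.conjNormal (Quotient.out q') n) ∈ act N (Quotient.out q)⁻¹ M :=
          Subgroup.mem_map_of_mem _ h1
        rw [h, map_mul, map_inv (MulAut.conjNormal (Quotient.out q)⁻¹), ActB_apply_inv,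
          ← MulAut.mul_apply, ← map_mul] at h3
        exact h3
      have h4 : ((Quotient.out q : G) : G ⧸ StabB_S N M h n)
          = ((Quotient.out q' : G) : G ⧸ StabB_S N M h n) := QuotientGroup.eq.2 h2
      rw [QuotientGroup.out_eq', QuotientGroup.out_eq'] at h4
      exact h4
    have hfi : Finite (G ⧸ StabB_S N M h n) := Finite.of_injective f hinj
    exact Subgroup.index_ne_zero_of_finite
  have hle : ⁅N, (⊤ : Subgroup G)⁆ ≤ M.map N.subtype := by
    rw [Subgroup.commutator_le]
    intro n hn g _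
    have h1 : g ∈ StabB_S N M h (⟨n, hn⟩⁻¹ : N) := by
      rw [hS]
      exact Subgroup.mem_top g
    rw [StabB_mem] at h1
    refine ⟨_, h1, ?_⟩
    rw [Subgroup.coe_subtype]
    push_cast
    rw [MulAut.conjNormal_apply]
    rw [commutatorElement_def]
    push_cast
    group
  apply hne
  rw [eq_top_iff]
  intro x _
  obtain ⟨m, hm, hmx⟩ := Subgroup.mem_map.1 (hle (hcom x.2))
  have : m = x := Subtype.ext hmx
  rwa [this] at hm

end AF430
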