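import Pool.Agent.Lib.MP_af430d_al.Defs
import Pool.Agent.Lib.MP_af430d_al.ActB
import Pool.Agent.Lib.MP_af430d_al.LongB

/-!
# MP_af430d_al job StepB: a covering argument (B. H. Neumann)

Suppose that for every `c ∈ N'` there is `M ≥ C`, `M ≠ ⊤` with `A ≤ act N (c * g) M =: R`. The pairs `(M, R)` range over a finite set `I` with at most `2 ^ C.index * 2 ^ A.index ≤ m` elements (`finite_above`,
see LongB). For a pair `(M, R)` the set `{c ∈ N' | act N (c * g) M = R}` is empty or contained in a left coset `c₀ • St N (act N g M)`: if `act N (c * g) M = act N (c₀ * g) M` then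
`c₀⁻¹ * c ∈ St N (act N g M)` (`act_mul`). So `N'` (as a group) is covered by at most `m` left cosets of the subgroups `K_{(M,R)} = (St N (act N g M)).subgroupOf N'`. By Mathlib's
`Subgroup.exists_index_le_card_of_leftCoset_cover` one of them has finite nonzero index `≤ m` in `N'`. But `St N (act N g M) = g (St N M) g⁻¹`, and because `N'` is normal in `G`, conjugation by `g` maps `N'` to itself, so
`(St N (act N g M)).relIndex N' = (St N M).relIndex N'` which is `0` or `> m`, a contradiction (`St_act_relIndex`; e.g. `Subgroup.relIndex_map_map_of_injective` or a direct bijection, with `MulAut.conj g`).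
You may import Pool.Agent.Lib.MP_af430d_al.ActB and LongB.
-/

namespace AF430

open Subgroup
open scoped Pointwise

universe v

variable {G : Type v} [Group G]

theorem St_act_relIndex (N N' : Subgroup G) [N.Normal] [N'.Normal] (M : Subgroup N) (g : G) :
    (St N (act N g M)).relIndex N' = (St N M).relIndex N' := by
  have e1 : St N (act N g M) = (St N M).map (MulAut.conj g).toMonoidHom := by
    ext x
    rw [mem_St, Subgroup.mem_map]
    constructor
    · intro hx
      refine ⟨g⁻¹ * x * g, ?_, ?_⟩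
      · rw [mem_St, act_mul, act_mul, hx, act_inv_act]
      · show g * (g⁻¹ * x * g) * g⁻¹ = x
        group
    · rintro ⟨y, hy, rfl⟩
      show act N (g * y * g⁻¹) (act N g M) = act N g M
      rw [act_mul, act_inv_act, act_mul, (mem_St N M y).1 hy]
  have e2 : N'.map (MulAut.conj g).toMonoidHom = N' := by
    ext x
    rw [Subgroup.mem_map]
    constructor
    · rintro ⟨y, hy, rfl⟩
      exact Subgroup.Normal.conj_mem inferInstance y hy g
    · intro hx
      refine ⟨g⁻¹ * x * g, ?_, ?_⟩
      · have h := Subgroup.Normal.conj_mem (inferInstance : N'.Normal) x hx g⁻¹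
        rwa [inv_inv] at h
      · show g * (g⁻¹ * x * g) * g⁻¹ = x
        group
  calc (St N (act N g M)).relIndex N'
      = ((St N M).map (MulAut.conj g).toMonoidHom).relIndex
          (N'.map (MulAut.conj g).toMonoidHom) := by rw [e1, e2]
    _ = (St N M).relIndex N' :=
        Subgroup.relIndex_map_map_of_injective _ _ (MulAut.conj g).injective

theorem step (N N' : Subgroup G) [N.Normal] [N'.Normal] (C A : Subgroup N) (hC : C.index ≠ 0)
    (hA : A.index ≠ 0) (m : ℕ) (hm : 2 ^ C.index * 2 ^ A.index ≤ m)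
    (hlong : ∀ M : Subgroup N, C ≤ M → M ≠ ⊤ → (St N M).relIndex N' = 0 ∨ m < (St N M).relIndex N')
    (g : G) : ∃ c : N', ∀ M : Subgroup N, C ≤ M → M ≠ ⊤ → ¬ (A ≤ act N ((c : G) * g) M) := by
  classical
  by_contra hcon
  push Not at hcon
  obtain ⟨f1, c1⟩ := finite_above C hC
  obtain ⟨f2, c2⟩ := finite_above A hA
  obtain ⟨I, hI⟩ : ∃ I : Set (Subgroup N × Subgroup N),
      I = {M | C ≤ M ∧ M ≠ ⊤} ×ˢ {R | A ≤ R} := ⟨_, rfl⟩
  have hsub : I ⊆ {M : Subgroup N | C ≤ M} ×ˢ {R : Subgroup N | A ≤ R} := by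
    rw [hI]
    rintro ⟨M, R⟩ ⟨h1, h2⟩
    exact ⟨h1.1, h2⟩
  have hfin : I.Finite := (f1.prod f2).subset hsub
  have hcard : hfin.toFinset.card ≤ m := by
    rw [← Set.ncard_eq_toFinset_card I hfin]
    calc I.ncard ≤ ({M : Subgroup N | C ≤ M} ×ˢ {R : Subgroup N | A ≤ R}).ncard :=
          Set.ncard_le_ncard hsub (f1.prod f2)
      _ = {M : Subgroup N | C ≤ M}.ncard * {R : Subgroup N | A ≤ R}.ncard := Set.ncard_prod
      _ ≤ 2 ^ C.index * 2 ^ A.index := Nat.mul_le_mul c1 c2
      _ ≤ m := hm
  have hcov : ⋃ i ∈ hfin.toFinset,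
      (if h : ∃ c : N', act N ((c : G) * g) i.1 = i.2 then h.choose else 1) •
        (((St N (act N g i.1)).subgroupOf N' : Subgroup N') : Set N') = Set.univ := by
    rw [Set.eq_univ_iff_forall]
    intro c
    obtain ⟨M, hM1, hM2, hM3⟩ := hcon c
    refine Set.mem_iUnion₂.2 ⟨(M, act N ((c : G) * g) M), ?_, ?_⟩
    · rw [Set.Finite.mem_toFinset, hI]
      exact ⟨⟨hM1, hM2⟩, hM3⟩
    · have hex : ∃ c' : N', act N ((c' : G) * g) M = act N ((c : G) * g) M := ⟨c, rfl⟩
      show c ∈ (if h : ∃ c' : N', act N ((c' : G) * g) M = act N ((c : G) * g) M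
        then h.choose else 1) • (((St N (act N g M)).subgroupOf N' : Subgroup N') : Set N')
      rw [dif_pos hex, Set.mem_smul_set_iff_inv_smul_mem, smul_eq_mul, SetLike.mem_coe,
        Subgroup.mem_subgroupOf, mem_St]
      have h1 := hex.choose_spec
      generalize hex.choose = c0 at h1 ⊢
      rw [act_mul, act_mul] at h1
      show act N (((c0⁻¹ * c : N') : G)) (act N g M) = act N g M
      rw [Subgroup.coe_mul, Subgroup.coe_inv, act_mul, ← h1, act_inv_act]
  obtain ⟨i, hi, hfi, hle⟩ := Subgroup.exists_index_le_card_of_leftCoset_cover hcov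
  rw [Set.Finite.mem_toFinset, hI] at hi
  have h1 := hlong i.1 hi.1.1 hi.1.2
  rw [← St_act_relIndex N N' i.1 g] at h1
  have h2 : ((St N (act N g i.1)).subgroupOf N').index = (St N (act N g i.1)).relIndex N' := rfl
  rw [h2] at hle
  have h3 : (St N (act N g i.1)).relIndex N' ≠ 0 := hfi.index_ne_zero
  rcases h1 with h1 | h1
  · exact h3 h1
  · omega

end AF430
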