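import Pool.Agent.Lib.MP_af430d_al.Defs
import Pool.Agent.Lib.MP_af430d_al.ActB
import Pool.Agent.Lib.MP_af430d_al.IndB
import Pool.Agent.Lib.MP_af430d_al.IndC
import Pool.Agent.Lib.MP_af430d_al.StabB

/-!
# MP_af430d_al job VirtB: virtual positions

Notation: `C = CN N H`, `C' = CN N' H`, `g' i = n i * g i`, `h_L = pos g L`, `h'_L = pos g' L`. Induction on `L`; state for `L`: lists `l i` of constraints, an element `v : N'` (virtual position), a subgroup `A` of `N`.
* `L = []`: `l i = []`, `v = 1`, `A = act N 1 C ⊓ ⊤`; `PL g' [] = [1]`, `Ind` is `act N 1 C ⊔ ⊤ = ⊤`.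
* `a :: L`, with `l, v, A` for `L` (the bound `hm` for `a :: L` implies the one for `L`; `A.index ≤ C.index ^ (L.length + 1)`). Put `h = pos g (a :: L)`. By `step` of job StepB (its conclusion is available here as the hypothesis `hstep`)
  there is `c : N'` such that `act N (c * h) C ⊔ A = ⊤` (`sup_of_not_le` of job IndB with `g := c * h`; note `A ≤ act N (c * h) M`). New virtual position: `c`. New `A`: `act N (c * h) C ⊓ A`.
  New constraint, added in front of `l i` for `i = a.1`: target and value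
    - `a = (i, true)`: target `h`, value `t = c * (g i * v * (g i)⁻¹)⁻¹` (`g i * v * (g i)⁻¹ ∈ N'` by normality);
    - `a = (i, false)`: target `pos g L`, value `t = v * (g i * c * (g i)⁻¹)⁻¹`.
  Let `n` satisfy all constraints. Then those for `L` hold, so `h'_L = v * x * h_L` with `x ∈ act N' h_L C'`.
    - `a = (i, true)`, `h = g i * h_L`, `n i = t * y`, `y ∈ act N' h C'`: `h'_{a :: L} = n i * g i * v * x * h_L = t * y * (g i * v * (g i)⁻¹) * (g i * x * (g i)⁻¹) * h`, and `g i * x * (g i)⁻¹ ∈ act N' h C'` (`act_mul`).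
      As `act N' h C'` is normal in `N'`: `h'_{a :: L} = c * z * h` with `z ∈ act N' h C'`.
    - `a = (i, false)`, `h = (g i)⁻¹ * h_L`, `n i = t * y`, `y ∈ act N' h_L C'`: `h'_{a :: L} = (g i)⁻¹ * (n i)⁻¹ * v * x * h_L = (g i)⁻¹ * y⁻¹ * (g i * c * (g i)⁻¹) * v⁻¹ * v * x * h_L = (g i)⁻¹ * y⁻¹ * (g i) * c * (g i)⁻¹ * x * g i * h`
      and `(g i)⁻¹ * y⁻¹ * g i`, `(g i)⁻¹ * x * g i` are in `act N' h C'`, so again `= c * z * h`.
  With `z = h z' h⁻¹`, `z' ∈ C'`: `act N h'_{a::L} C = act N (c * h * z') C = act N (c * h) C` by `act_CN` of job StabB (with `M = C`), so `PL g' (a :: L)` has `AA = act N (c * h) C ⊓ A` and is independent.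
Suggestion: first prove the two group computations as separate lemmas on `G` with `C'`-normality used through `(act N' h C').Normal` (`act_normal`, `CN_normal`).
The bound: `(act N (c * h) C ⊓ A).index ≤ C.index * A.index ≤ C.index ^ (L.length + 2)` and it is `≠ 0`.
You may import Pool.Agent.Lib.MP_af430d_al.ActB, IndB, StabB, StepB.
-/

namespace AF430

open Subgroup

universe v w

variable {G : Type v} [Group G] {ι : Type w}

/-- The conjugate `h C_{N'} h⁻¹` as a set of elements of `G`. -/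
def VK (N' : Subgroup G) [N'.Normal] (H : Subgroup G) (h : G) : Set G :=
  {x | ∃ z : N', z ∈ CN N' H ∧ x = h * z * h⁻¹}

section VK

variable (N' : Subgroup G) [N'.Normal] (H : Subgroup G)

theorem VK_mul {h x x' : G} (hx : x ∈ VK N' H h) (hx' : x' ∈ VK N' H h) : x * x' ∈ VK N' H h := by
  obtain ⟨z, hz, rfl⟩ := hx
  obtain ⟨z', hz', rfl⟩ := hx'
  refine ⟨z * z', Subgroup.mul_mem _ hz hz', ?_⟩
  rw [Subgroup.coe_mul]
  group

theorem VK_inv {h x : G} (hx : x ∈ VK N' H h) : x⁻¹ ∈ VK N' H h := by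
  obtain ⟨z, hz, rfl⟩ := hx
  refine ⟨z⁻¹, Subgroup.inv_mem _ hz, ?_⟩
  rw [Subgroup.coe_inv]
  group

theorem VK_sub {h x : G} (hx : x ∈ VK N' H h) : x ∈ N' := by
  obtain ⟨z, hz, rfl⟩ := hx
  exact (inferInstance : N'.Normal).conj_mem _ z.2 h

theorem VK_conj {h x u : G} (hx : x ∈ VK N' H h) (hu : u ∈ N') : u * x * u⁻¹ ∈ VK N' H h := by
  obtain ⟨z, hz, rfl⟩ := hx
  have hN : N'.Normal := inferInstance
  have hu' : h⁻¹ * u * h ∈ N' := by
    have := hN.conj_mem u hu h⁻¹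
    rwa [inv_inv] at this
  have h1 : (⟨h⁻¹ * u * h, hu'⟩ : N') * z * (⟨h⁻¹ * u * h, hu'⟩ : N')⁻¹ ∈ CN N' H :=
    (CN_normal N' H).conj_mem z hz _
  refine ⟨_, h1, ?_⟩
  rw [Subgroup.coe_mul, Subgroup.coe_mul, Subgroup.coe_inv]
  group

theorem VK_trans {h x : G} (g : G) (hx : x ∈ VK N' H h) : g * x * g⁻¹ ∈ VK N' H (g * h) := by
  obtain ⟨z, hz, rfl⟩ := hx
  refine ⟨z, hz, ?_⟩
  group

theorem mem_VK {h : G} (z : N') : (z : G) ∈ VK N' H h ↔ z ∈ act N' h (CN N' H) := by
  constructor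
  · rintro ⟨z', hz', hzz⟩
    refine ⟨z', hz', ?_⟩
    apply Subtype.ext
    rw [hzz]
    exact MulAut.conjNormal_apply h z'
  · rintro ⟨z', hz', rfl⟩
    exact ⟨z', hz', MulAut.conjNormal_apply h z'⟩

end VK

theorem virt_true (N' : Subgroup G) [N'.Normal] (H : Subgroup G) (g hL c v x n : G) (hv : v ∈ N')
    (hx : x ∈ VK N' H hL)
    (hn : (c * (g * v * g⁻¹)⁻¹)⁻¹ * n ∈ VK N' H (g * hL)) :
    ∃ z ∈ VK N' H (g * hL), (n * g) * (v * x * hL) = c * z * (g * hL) := by
  have hN : N'.Normal := inferInstance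
  have hW : g * v * g⁻¹ ∈ N' := hN.conj_mem v hv g
  refine ⟨((g * v * g⁻¹)⁻¹ * ((c * (g * v * g⁻¹)⁻¹)⁻¹ * n) * (g * v * g⁻¹)⁻¹⁻¹) * (g * x * g⁻¹),
    VK_mul N' H (VK_conj N' H hn (N'.inv_mem hW)) (VK_trans N' H g hx), ?_⟩
  group

theorem virt_false (N' : Subgroup G) [N'.Normal] (H : Subgroup G) (g hL c v x n : G) (hc : c ∈ N')
    (hx : x ∈ VK N' H hL)
    (hn : (v * (g * c * g⁻¹)⁻¹)⁻¹ * n ∈ VK N' H hL) :
    ∃ z ∈ VK N' H (g⁻¹ * hL), (n * g)⁻¹ * (v * x * hL) = c * z * (g⁻¹ * hL) := by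
  refine ⟨(c⁻¹ * (g⁻¹ * ((v * (g * c * g⁻¹)⁻¹)⁻¹ * n)⁻¹ * g⁻¹⁻¹) * c⁻¹⁻¹) * (g⁻¹ * x * g⁻¹⁻¹),
    VK_mul N' H (VK_conj N' H (VK_trans N' H g⁻¹ (VK_inv N' H hn)) (N'.inv_mem hc))
      (VK_trans N' H g⁻¹ hx), ?_⟩
  group

/-- The actual position acts on the subgroups above `C_N` as the virtual one. -/
theorem virt_act (N N' : Subgroup G) [N.Normal] [N'.Normal] (H : Subgroup G) (hle : N ≤ N')
    (c z h : G) (hz : z ∈ VK N' H h) : act N (c * z * h) (CN N H) = act N (c * h) (CN N H) := by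
  obtain ⟨z', hz', rfl⟩ := hz
  have h1 : c * (h * z' * h⁻¹) * h = c * h * z' := by group
  rw [h1, act_mul, act_CN N N' H hle z' hz' (CN N H) le_rfl]

theorem virt (N N' : Subgroup G) [N.Normal] [N'.Normal] (H : Subgroup G) (hle : N ≤ N')
    (hC : (CN N H).index ≠ 0) (g : ι → G) (L : List (ι × Bool))
    (hstep : ∀ A : Subgroup N, A.index ≠ 0 → A.index ≤ (CN N H).index ^ (L.length + 1) → ∀ h : G,
      ∃ c : N', ∀ M : Subgroup N, CN N H ≤ M → M ≠ ⊤ → ¬ (A ≤ act N ((c : G) * h) M)) :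
    ∃ l : ι → List (G × N'), (∀ i, (l i).map Prod.fst = TL g i L) ∧
    ∃ (v : N') (A : Subgroup N), A.index ≠ 0 ∧ A.index ≤ (CN N H).index ^ (L.length + 1) ∧
    ∀ n : ι → N', (∀ i, ∀ q ∈ l i, q.2⁻¹ * n i ∈ act N' q.1 (CN N' H)) →
      (∃ z : N', z ∈ act N' (pos g L) (CN N' H) ∧
        pos (fun i => (n i : G) * g i) L = v * z * pos g L) ∧
      Ind N H (PL (fun i => (n i : G) * g i) L) ∧
      AA N H (PL (fun i => (n i : G) * g i) L) = A := by
  classical
  induction L with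
  | nil =>
    refine ⟨fun _ => [], fun _ => rfl, 1, act N 1 (CN N H) ⊓ ⊤, ?_, ?_, fun n _ => ⟨⟨1, one_mem _, ?_⟩, ?_, ?_⟩⟩
    · rw [inf_top_eq, act_one]; exact hC
    · rw [inf_top_eq, act_one]; simp
    · show (1 : G) = (1 : N') * (1 : N') * 1
      simp
    · show act N 1 (CN N H) ⊔ ⊤ = ⊤ ∧ True
      exact ⟨sup_top_eq _, trivial⟩
    · rfl
  | cons a L ih =>
    have hC1 : 1 ≤ (CN N H).index := Nat.one_le_iff_ne_zero.2 hC
    obtain ⟨l, hl, v, A, hA, hA2, hn⟩ := ih (fun A hA hA2 h => hstep A hA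
      (hA2.trans (Nat.pow_le_pow_right hC1 (by simp))) h)
    obtain ⟨c, hc⟩ := hstep A hA (hA2.trans (Nat.pow_le_pow_right hC1 (by simp))) (pos g (a :: L))
    have hsup := sup_of_not_le N ((c : G) * pos g (a :: L)) (CN N H) A hc
    obtain ⟨i, b⟩ := a
    have hN : N'.Normal := inferInstance
    -- target and value of the new constraint
    obtain ⟨T, t, hT, hkey⟩ : ∃ (T : G) (t : N'),
        (T = if b = true then pos g ((i, b) :: L) else pos g L) ∧
        ∀ (n : ι → N'), t⁻¹ * n i ∈ act N' T (CN N' H) →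
          (∃ z : N', z ∈ act N' (pos g L) (CN N' H) ∧
            pos (fun i => (n i : G) * g i) L = v * z * pos g L) →
          ∃ z : N', z ∈ act N' (pos g ((i, b) :: L)) (CN N' H) ∧
            pos (fun i => (n i : G) * g i) ((i, b) :: L) = c * z * pos g ((i, b) :: L) := by
      cases b with
      | true =>
        refine ⟨pos g ((i, true) :: L), c * (⟨g i * v * (g i)⁻¹, hN.conj_mem _ v.2 _⟩ : N')⁻¹, by simp, ?_⟩
        intro n hn1 hn2
        obtain ⟨x, hx, hx2⟩ := hn2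
        have h1 := (mem_VK N' H _).2 hx
        have h2 := (mem_VK N' H _).2 hn1
        simp only [Subgroup.coe_mul, Subgroup.coe_inv] at h2
        obtain ⟨z, hz, hz2⟩ := virt_true N' H (g i) (pos g L) c v x (n i) v.2 h1 h2
        refine ⟨⟨z, VK_sub N' H hz⟩, (mem_VK N' H _).1 hz, ?_⟩
        show ((n i : G) * g i) * pos (fun i => (n i : G) * g i) L = c * z * (g i * pos g L)
        rw [hx2]
        exact hz2
      | false =>
        refine ⟨pos g L, v * (⟨g i * c * (g i)⁻¹, hN.conj_mem _ c.2 _⟩ : N')⁻¹, by simp, ?_⟩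
        intro n hn1 hn2
        obtain ⟨x, hx, hx2⟩ := hn2
        have h1 := (mem_VK N' H _).2 hx
        have h2 := (mem_VK N' H _).2 hn1
        simp only [Subgroup.coe_mul, Subgroup.coe_inv] at h2
        obtain ⟨z, hz, hz2⟩ := virt_false N' H (g i) (pos g L) c v x (n i) c.2 h1 h2
        refine ⟨⟨z, VK_sub N' H hz⟩, (mem_VK N' H _).1 hz, ?_⟩
        show ((n i : G) * g i)⁻¹ * pos (fun i => (n i : G) * g i) L = c * z * ((g i)⁻¹ * pos g L)
        rw [hx2]
        exact hz2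
    refine ⟨fun j => if i = j then (T, t) :: l j else l j, ?_, c,
      act N ((c : G) * pos g ((i, b) :: L)) (CN N H) ⊓ A, ?_, ?_, ?_⟩
    · intro j
      show List.map Prod.fst (if i = j then (T, t) :: l j else l j) =
        if i = j then (if b = true then pos g ((i, b) :: L) else pos g L) :: TL g j L else TL g j L
      by_cases hij : i = j
      · rw [if_pos hij, if_pos hij, List.map_cons, hl j, hT]
      · rw [if_neg hij, if_neg hij, hl j]
    · exact Subgroup.index_inf_ne_zero (by rw [act_index]; exact hC) hA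
    · refine Subgroup.index_inf_le.trans ?_
      rw [act_index, List.length_cons, pow_succ' _ (L.length + 1)]
      exact Nat.mul_le_mul_left _ hA2
    · intro n hn0
      have h1 : ∀ j, ∀ q ∈ l j, q.2⁻¹ * n j ∈ act N' q.1 (CN N' H) := by
        intro j q hq
        apply hn0 j q
        show q ∈ if i = j then (T, t) :: l j else l j
        by_cases hij : i = j
        · rw [if_pos hij]; exact List.mem_cons_of_mem _ hq
        · rw [if_neg hij]; exact hq
      obtain ⟨hpos, hInd, hAA⟩ := hn n h1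
      have h2 : t⁻¹ * n i ∈ act N' T (CN N' H) := hn0 i (T, t) (by
        show (T, t) ∈ if i = i then (T, t) :: l i else l i
        rw [if_pos rfl]; exact List.mem_cons_self)
      obtain ⟨z, hz, hz2⟩ := hkey n h2 hpos
      have h3 : act N (pos (fun i => (n i : G) * g i) ((i, b) :: L)) (CN N H) =
          act N ((c : G) * pos g ((i, b) :: L)) (CN N H) := by
        rw [hz2]
        exact virt_act N N' H hle c z _ ((mem_VK N' H _).2 hz)
      refine ⟨⟨z, hz, hz2⟩, ?_, ?_⟩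
      · show act N (pos (fun i => (n i : G) * g i) ((i, b) :: L)) (CN N H) ⊔
          AA N H (PL (fun i => (n i : G) * g i) L) = ⊤ ∧ Ind N H (PL (fun i => (n i : G) * g i) L)
        rw [h3, hAA]
        exact ⟨hsup, hInd⟩
      · show act N (pos (fun i => (n i : G) * g i) ((i, b) :: L)) (CN N H) ⊓
          AA N H (PL (fun i => (n i : G) * g i) L) = _
        rw [h3, hAA]

end AF430
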