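import Pool.Agent.Lib.MP_af430d_al.Defs

/-!
# MP_af430d_al job WordB: combinatorics of reduced words

* `TL_eq`: for a letter `(i, true)` the target is `g i * pos L`, the source `pos L`; for `(i, false)` the target is `pos L`, the source `(g i)⁻¹ * pos L`.
* `TL_sublist`: by induction on `L`, both parts together. `L = a :: L'`. If `a.1 ≠ i`: `TL i L = TL i L'`, a sublist of `PL L' = (PL L).tail` by part one for `L'`. If `a = (i, true)`: `TL i L = pos L :: TL i L'` and
  `PL L = pos L :: PL L'`, use part one for `L'` (part two is void). If `a = (i, false)`: `TL i L = pos L' :: TL i L'`; `PL L' = pos L' :: (PL L').tail` (for every `L'`), and `TL i L'` is a sublist of `(PL L').tail` by part two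
  for `L'`, because the head of `L'` is not `(i, true)` (`Red L`).
* `SL_sublist`: the same with `(i, false)` in place of `(i, true)`.
-/

namespace AF430

open Subgroup

universe v w

variable {G : Type v} [Group G] {ι : Type w} (g : ι → G)

theorem TL_eq (i : ι) (L : List (ι × Bool)) : TL g i L = (SL g i L).map (g i * ·) := by
  classical
  induction L with
  | nil => rfl
  | cons a L ih =>
    obtain ⟨j, b⟩ := a
    unfold TL SL
    by_cases hj : j = i
    · subst hj
      rw [if_pos rfl, if_pos rfl, List.map_cons, ih]
      congr 1
      cases b with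
      | true => rfl
      | false =>
        show pos g L = g j * ((g j)⁻¹ * pos g L)
        rw [mul_inv_cancel_left]
    · rw [if_neg hj, if_neg hj, ih]

theorem WordB_PL (L : List (ι × Bool)) : PL g L = pos g L :: (PL g L).tail := by
  cases L with
  | nil => rfl
  | cons a L => rfl

theorem TL_sublist (i : ι) (L : List (ι × Bool)) (hL : Red L) : (TL g i L).Sublist (PL g L) ∧
    ((∀ b ∈ L.head?, b ≠ (i, true)) → (TL g i L).Sublist (PL g L).tail) := by
  classical
  induction L with
  | nil => exact ⟨List.nil_sublist _, fun _ => List.nil_sublist _⟩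
  | cons a L ih =>
    obtain ⟨h1, h2⟩ := ih hL.2
    obtain ⟨j, b⟩ := a
    have hPL : PL g ((j, b) :: L) = pos g ((j, b) :: L) :: PL g L := rfl
    by_cases hj : j = i
    · subst hj
      cases b with
      | true =>
        have hT : TL g j ((j, true) :: L) = pos g ((j, true) :: L) :: TL g j L := by
          rw [TL, if_pos rfl, if_pos rfl]
        rw [hT, hPL]
        refine ⟨List.Sublist.cons_cons _ h1, fun hb => absurd rfl (hb (j, true) (by simp))⟩
      | false =>
        have hT : TL g j ((j, false) :: L) = pos g L :: TL g j L := by
          rw [TL, if_pos rfl, if_neg (by simp)]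
        have h3 : (TL g j L).Sublist (PL g L).tail := h2 (fun b hb => by simpa using hL.1 b hb)
        have h4 : (TL g j ((j, false) :: L)).Sublist (PL g L) := by
          rw [hT, WordB_PL g L]
          exact List.Sublist.cons_cons _ h3
        refine ⟨?_, fun _ => ?_⟩
        · rw [hPL]; exact h4.cons _
        · rw [hPL]; exact h4
    · have hT : TL g i ((j, b) :: L) = TL g i L := by
        rw [TL, if_neg hj]
      rw [hT, hPL]
      exact ⟨h1.cons _, fun _ => h1⟩

theorem SL_sublist (i : ι) (L : List (ι × Bool)) (hL : Red L) : (SL g i L).Sublist (PL g L) ∧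
    ((∀ b ∈ L.head?, b ≠ (i, false)) → (SL g i L).Sublist (PL g L).tail) := by
  classical
  induction L with
  | nil => exact ⟨List.nil_sublist _, fun _ => List.nil_sublist _⟩
  | cons a L ih =>
    obtain ⟨h1, h2⟩ := ih hL.2
    obtain ⟨j, b⟩ := a
    have hPL : PL g ((j, b) :: L) = pos g ((j, b) :: L) :: PL g L := rfl
    by_cases hj : j = i
    · subst hj
      cases b with
      | true =>
        have hT : SL g j ((j, true) :: L) = pos g L :: SL g j L := by
          rw [SL, if_pos rfl, if_pos rfl]
        have h3 : (SL g j L).Sublist (PL g L).tail := h2 (fun b hb => by simpa using hL.1 b hb)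
        have h4 : (SL g j ((j, true) :: L)).Sublist (PL g L) := by
          rw [hT, WordB_PL g L]
          exact List.Sublist.cons_cons _ h3
        refine ⟨?_, fun _ => ?_⟩
        · rw [hPL]; exact h4.cons _
        · rw [hPL]; exact h4
      | false =>
        have hT : SL g j ((j, false) :: L) = pos g ((j, false) :: L) :: SL g j L := by
          rw [SL, if_pos rfl, if_neg (by simp)]
        rw [hT, hPL]
        refine ⟨List.Sublist.cons_cons _ h1, fun hb => absurd rfl (hb (j, false) (by simp))⟩
    · have hT : SL g i ((j, b) :: L) = SL g i L := by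
        rw [SL, if_neg hj]
      rw [hT, hPL]
      exact ⟨h1.cons _, fun _ => h1⟩

end AF430
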