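import Pool.Agent.Lib.MP_af430d_al.Defs
import Pool.Agent.Lib.MP_af430d_al.IndB
import Pool.Agent.Lib.MP_af430d_al.WordB
import Pool.Agent.Lib.MP_af430d_al.ActB

/-!
# MP_af430d_al job WordC: independence along a reduced word; free groups

* `Ind_TL`: `PL g (a :: L) = _ :: PL g L`. If `a ≠ (i, true)` then `TL i (a :: L)` is a sublist of `PL g L` (part two). If `a = (i, true)`, then `SL i (a :: L)` is a sublist of `PL g L` (part two of `SL_sublist`), so
  `Ind N H (SL i (a :: L))`, and `TL = SL.map (g i * ·)`; use `Ind_map`, `Ind_sublist`.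
* `Ind_ne_one`: `PL g (a :: L) = pos g (a :: L) :: PL g L`, and `1 ∈ PL g L` (last entry). If `pos g (a :: L) = 1` then `⊤ = act N 1 C ⊔ AA (PL g L) ≤ act N 1 C = C` (`AA_le_of_mem`), contradiction.
* `free_pos`: `FreeGroup.lift g u` is the product over `u.toWord`; `FreeGroup.mk_toWord`, `FreeGroup.lift_mk` (`List.prod (L.map fun x => cond x.2 (g x.1) (g x.1)⁻¹)`), and `Red u.toWord` from `FreeGroup.isReduced_toWord`
  (see Mathlib/GroupTheory/FreeGroup/Reduce.lean: `FreeGroup.IsReduced`), `u.toWord ≠ []` from `FreeGroup.toWord_eq_nil_iff`.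
You may import Pool.Agent.Lib.MP_af430d_al.ActB, IndB, WordB.
-/

namespace AF430

open Subgroup

universe v w

variable {G : Type v} [Group G] {ι : Type w} (g : ι → G)

theorem Ind_TL (N : Subgroup G) [N.Normal] (H : Subgroup G) (a : ι × Bool) (L : List (ι × Bool))
    (hL : Red (a :: L)) (h : Ind N H (PL g L)) (i : ι) : Ind N H (TL g i (a :: L)) := by
  by_cases ha : a = (i, true)
  · have h1 : (SL g i (a :: L)).Sublist (PL g L) := by
      apply (SL_sublist g i (a :: L) hL).2
      intro b hb
      rw [List.head?_cons, Option.mem_some_iff] at hb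
      rw [← hb, ha]
      simp
    rw [TL_eq]
    exact Ind_map N H (g i) _ (Ind_sublist N H _ _ h1 h)
  · have h1 : (TL g i (a :: L)).Sublist (PL g L) := by
      apply (TL_sublist g i (a :: L) hL).2
      intro b hb
      rw [List.head?_cons, Option.mem_some_iff] at hb
      rw [← hb]
      exact ha
    exact Ind_sublist N H _ _ h1 h

theorem WordC_one_mem (L : List (ι × Bool)) : (1 : G) ∈ PL g L := by
  induction L with
  | nil => simp [PL]
  | cons a L ih => exact List.mem_cons_of_mem _ ih

theorem Ind_ne_one (N : Subgroup G) [N.Normal] (H : Subgroup G) (hC : CN N H ≠ ⊤) (L : List (ι × Bool))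
    (hL : L ≠ []) (h : Ind N H (PL g L)) : pos g L ≠ 1 := by
  cases L with
  | nil => exact absurd rfl hL
  | cons a L =>
    intro h1
    have h2 : act N (pos g (a :: L)) (CN N H) ⊔ AA N H (PL g L) = ⊤ := h.1
    rw [h1] at h2
    have h3 := AA_le_of_mem N H (PL g L) 1 (WordC_one_mem g L)
    rw [sup_eq_left.2 h3, act_one] at h2
    exact hC h2

theorem WordC_pos (L : List (ι × Bool)) :
    pos g L = List.prod (L.map fun x => cond x.2 (g x.1) (g x.1)⁻¹) := by
  induction L with
  | nil => rfl
  | cons a L ih =>
    rw [List.map_cons, List.prod_cons, ← ih]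
    rcases a with ⟨i, b⟩
    cases b <;> rfl

theorem WordC_red (L : List (ι × Bool)) (h : FreeGroup.IsReduced L) : Red L := by
  induction L with
  | nil => trivial
  | cons a L ih =>
    refine ⟨?_, ?_⟩
    · intro b hb
      cases L with
      | nil => simp at hb
      | cons c L =>
        rw [List.head?_cons, Option.mem_some_iff] at hb
        subst hb
        have h1 : a.1 = c.1 → a.2 = c.2 := by
          have h2 := List.isChain_cons_cons.1 h
          exact h2.1
        intro h3
        rw [h3] at h1
        have h4 := h1 rfl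
        simp at h4
    · apply ih
      cases L with
      | nil => exact List.isChain_nil
      | cons c L => exact (List.isChain_cons_cons.1 h).2

theorem free_pos (u : FreeGroup ι) (hu : u ≠ 1) : ∃ L : List (ι × Bool), L ≠ [] ∧ Red L ∧
    ∀ g : ι → G, FreeGroup.lift g u = pos g L := by
  classical
  refine ⟨u.toWord, ?_, WordC_red _ FreeGroup.isReduced_toWord, fun g => ?_⟩
  · intro h
    exact hu (FreeGroup.toWord_eq_nil_iff.1 h)
  · rw [WordC_pos, ← FreeGroup.lift_mk, FreeGroup.mk_toWord]

end AF430
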