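import Pool.Agent.Lib.MP_af430d_al.ActB
import Pool.Agent.Lib.MP_af430d_al.IndB
import Pool.Agent.Lib.MP_af430d_al.IndC
import Pool.Agent.Lib.MP_af430d_al.StabB
import Pool.Agent.Lib.MP_af430d_al.LongB
import Pool.Agent.Lib.MP_af430d_al.StepB
import Pool.Agent.Lib.MP_af430d_al.WordB
import Pool.Agent.Lib.MP_af430d_al.WordC
import Pool.Agent.Lib.MP_af430d_al.VirtB
import Pool.Agent.Lib.MP_af430d_al.QuotB
import Pool.Agent.Lib.MP_af430d_al.LeafB
import Pool.Agent.Lib.MP_af430d_al.FamB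

/-!
# The theorem: no nontrivial quotient satisfies a nontrivial law
-/

namespace AF430

open Subgroup

universe v w

theorem index_CN {G : Type v} [Group G] (N : Subgroup G) [N.Normal] (H : Subgroup G)
    (h : H.relIndex N ≠ 0) : (CN N H).index ≠ 0 := by
  have h1 : (H.subgroupOf N).FiniteIndex := ⟨h⟩
  have h2 : (H.subgroupOf N).normalCore.FiniteIndex := Subgroup.finiteIndex_normalCore _
  exact h2.index_ne_zero

/-- Independence of the positions of a reduced word. -/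
theorem indep {G : Type v} [Group G] {ι : Type w} (H : Subgroup G)
    (hfin : ∀ M : Subgroup G, M.index ≠ 0 → M = ⊤) (𝒩 : Set (Subgroup G))
    (hgood : ∀ N ∈ 𝒩, Good H N)
    (hdir : ∀ N ∈ 𝒩, ∀ s : Finset G, ∃ N' ∈ 𝒩, N ≤ N' ∧ (s : Set G) ⊆ N')
    (L : List (ι × Bool)) : Red L → ∀ (N : Subgroup G) [N.Normal], N ∈ 𝒩 →
      ∃ g : ι → G, Ind N H (PL g L) := by
  induction L with
  | nil =>
    intro _ N _ _
    exact ⟨fun _ => 1, by show act N 1 (CN N H) ⊔ ⊤ = ⊤ ∧ True; exact ⟨sup_top_eq _, trivial⟩⟩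
  | cons a L ih =>
    intro hR N _ hN
    have hC := index_CN N H (hgood N hN).fin
    set m := 2 ^ (CN N H).index * 2 ^ ((CN N H).index ^ ((a :: L).length + 1)) with hm
    obtain ⟨N', hN', hle, hlong⟩ := long_orbits 𝒩 hdir N hN (CN N H) hC
      (fun M hM hne => by
        have : (CN N H).FiniteIndex := ⟨hC⟩
        have : M.FiniteIndex := Subgroup.finiteIndex_of_le hM
        exact St_index hfin N (hgood N hN).com M Subgroup.FiniteIndex.index_ne_zero hne) m
    have : N'.Normal := (hgood N' hN').nor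
    obtain ⟨g, hg⟩ := ih hR.2 N' hN'
    obtain ⟨l, hl, v, A, -, -, hn⟩ := virt N N' H hle hC g (a :: L) (by
      intro A hA hA2 h
      exact step N N' (CN N H) A hC hA m
        (by rw [hm]; exact Nat.mul_le_mul_left _ (Nat.pow_le_pow_right (by norm_num) hA2)) hlong h)
    have h1 : ∀ i, ∃ n : N', ∀ q ∈ l i, q.2⁻¹ * n ∈ act N' q.1 (CN N' H) := by
      intro i
      apply CRT N' H (l i)
      rw [hl i]
      exact Ind_TL g N' H a L hR hg i
    choose n hn' using h1
    exact ⟨fun i => (n i : G) * g i, (hn n hn').2.1⟩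

theorem main_centerless {p : ℕ} (hp : p.Prime) {G : Type v} [Group G] (h : Hy p G)
    (hZ : Subgroup.center G = ⊥) (hn : Nontrivial G) {ι : Type w} (u : FreeGroup ι) (hu : u ≠ 1) :
    ∃ g : ι → G, FreeGroup.lift g u ≠ 1 := by
  obtain ⟨E, a, y, hE, ha, hy, hleaf⟩ := leaf h hZ hn
  obtain ⟨𝒩, ⟨N0, hN0⟩, hgood, hdir⟩ := family hp h E a y hE ha hleaf
  -- an element not commuting with `y`
  obtain ⟨x, hx⟩ : ∃ x : G, x * y ≠ y * x := by
    by_contra hcon
    push Not at hcon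
    apply hy
    have : y ∈ Subgroup.center G := Subgroup.mem_center_iff.2 hcon
    rw [hZ] at this
    exact Subgroup.mem_bot.1 this
  obtain ⟨N, hN, -, hxN⟩ := hdir N0 hN0 {x}
  have : N.Normal := (hgood N hN).nor
  have hxN' : x ∈ N := hxN (by simp)
  have hCN : CN N (Subgroup.centralizer {y}) ≠ ⊤ := by
    intro htop
    have h1 : (⟨x, hxN'⟩ : N) ∈ CN N (Subgroup.centralizer {y}) := by rw [htop]; trivial
    have h2 : x ∈ Subgroup.centralizer ({y} : Set G) := by simpa using (mem_CN N _ _).1 h1 1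
    have h3 := Subgroup.mem_centralizer_iff.1 h2 y (Set.mem_singleton y)
    exact hx h3.symm
  obtain ⟨L, hL, hR, hlift⟩ := free_pos (G := G) u hu
  obtain ⟨g, hg⟩ := indep (ι := ι) (Subgroup.centralizer {y}) (fun M hM => no_fin hp h M hM) 𝒩 hgood hdir L hR N hN
  refine ⟨g, ?_⟩
  rw [hlift g]
  exact Ind_ne_one g N _ hCN L hL hg

theorem main {p : ℕ} (hp : p.Prime) {G : Type v} [Group G] (h : Hy p G) (K : Subgroup G) [K.Normal]
    (hK : K ≠ ⊤) {ι : Type w} (u : FreeGroup ι) (hu : u ≠ 1) :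
    ∃ g : ι → G, FreeGroup.lift g u ∉ K := by
  have hnt : Nontrivial (G ⧸ K) := QuotientGroup.nontrivial_iff.2 hK
  have h1 : Hy p (G ⧸ K) := Hy.of_surj (QuotientGroup.mk' K) (QuotientGroup.mk'_surjective K) h
  obtain ⟨hZ, hnt2⟩ := center_quot h1 hnt
  have h2 : Hy p ((G ⧸ K) ⧸ Subgroup.center (G ⧸ K)) :=
    Hy.of_surj (QuotientGroup.mk' _) (QuotientGroup.mk'_surjective _) h1
  obtain ⟨g', hg'⟩ := main_centerless hp h2 hZ hnt2 u hu
  set f : G →* ((G ⧸ K) ⧸ Subgroup.center (G ⧸ K)) :=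
    (QuotientGroup.mk' (Subgroup.center (G ⧸ K))).comp (QuotientGroup.mk' K) with hf
  have hfs : Function.Surjective f :=
    (QuotientGroup.mk'_surjective _).comp (QuotientGroup.mk'_surjective K)
  choose g hg using fun i => hfs (g' i)
  refine ⟨g, fun hmem => hg' ?_⟩
  have h3 : FreeGroup.lift g' = f.comp (FreeGroup.lift g) := by
    ext i
    simp [hg]
  rw [h3, MonoidHom.comp_apply, hf, MonoidHom.comp_apply]
  have h4 : QuotientGroup.mk' K (FreeGroup.lift g u) = 1 := (QuotientGroup.eq_one_iff _).2 hmem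
  rw [h4, map_one]

end AF430
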